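import Mathlib

set_option autoImplicit false

/-!
# Graphs without `K_{t,t,t}` have few triangles
-/

namespace Pool.Agent.Q179.CF

open Finset Function
open scoped Classical

set_option linter.unusedSectionVars false

variable {V : Type} [Fintype V]

/-- the neighbours of `x` in `S` -/
noncomputable def nb (G : SimpleGraph V) (S : Finset V) (x : V) : Finset V :=
  S.filter (fun y => G.Adj x y)

theorem mem_nb {G : SimpleGraph V} {S : Finset V} {x y : V} : y ∈ nb G S x ↔ y ∈ S ∧ G.Adj x y := by
  simp [nb]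

/-- twice the number of edges of `G[N]` -/
noncomputable def ed (G : SimpleGraph V) (N : Finset V) : ℝ := ∑ c ∈ N, ((nb G N c).card : ℝ)

/-- no complete tripartite graph with parts of size `t` -/
def Free3 (G : SimpleGraph V) (t : ℕ) : Prop :=
  ¬ ∃ a b c : Fin t → V, Injective a ∧ Injective b ∧ Injective c ∧
    (∀ i j, G.Adj (a i) (b j)) ∧ (∀ i j, G.Adj (a i) (c j)) ∧ ∀ i j, G.Adj (b i) (c j)

/-- maps to `N` -/
noncomputable def BB (N : Finset V) (s : ℕ) : Finset (Fin (s + 1) → V) :=
  Fintype.piFinset (fun _ => N)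

theorem card_BB (N : Finset V) (s : ℕ) : (BB N s).card = N.card ^ (s + 1) := by
  unfold BB
  rw [Fintype.card_piFinset]
  simp

/-- homomorphisms of `K_{s+1,s+1}` to `G[N]` -/
noncomputable def HH (G : SimpleGraph V) (N : Finset V) (s : ℕ) :
    Finset ((Fin (s + 1) → V) × (Fin (s + 1) → V)) :=
  (BB N s ×ˢ BB N s).filter (fun p => ∀ i j, G.Adj (p.1 i) (p.2 j))

theorem lower (G : SimpleGraph V) (N : Finset V) (s : ℕ) :
    ed G N ^ ((s + 1) * (s + 1)) ≤
      (N.card : ℝ) ^ (2 * (s * (s + 1))) * ((HH G N s).card : ℝ) := by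
  -- common neighbours of `b`
  set C : (Fin (s + 1) → V) → Finset V := fun b => N.filter (fun c => ∀ i, G.Adj (b i) c) with hC
  have h1 : ∑ c ∈ N, ((nb G N c).card : ℝ) ^ (s + 1) = ∑ b ∈ BB N s, ((C b).card : ℝ) := by
    have e1 : ∀ c ∈ N, ((nb G N c).card : ℝ) ^ (s + 1) =
        ∑ b ∈ BB N s, (if ∀ i, G.Adj (b i) c then (1:ℝ) else 0) := by
      intro c _
      rw [← Finset.sum_filter, Finset.sum_const, nsmul_eq_mul, mul_one]
      have : (BB N s).filter (fun b => ∀ i, G.Adj (b i) c) =
          Fintype.piFinset (fun _ : Fin (s + 1) => nb G N c) := by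
        ext b
        simp only [BB, Finset.mem_filter, Fintype.mem_piFinset, mem_nb]
        constructor
        · rintro ⟨h1, h2⟩ i
          exact ⟨h1 i, (h2 i).symm⟩
        · intro h
          exact ⟨fun i => (h i).1, fun i => (h i).2.symm⟩
      rw [this, Fintype.card_piFinset]
      simp
    rw [Finset.sum_congr rfl e1, Finset.sum_comm]
    apply Finset.sum_congr rfl
    intro b _
    rw [← Finset.sum_filter, Finset.sum_const, nsmul_eq_mul, mul_one]
  have h2 : ((HH G N s).card : ℝ) = ∑ b ∈ BB N s, ((C b).card : ℝ) ^ (s + 1) := by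
    have e1 : HH G N s = (BB N s).biUnion (fun b =>
        (Fintype.piFinset (fun _ : Fin (s + 1) => C b)).image (fun c => (b, c))) := by
      ext ⟨b, c⟩
      simp only [HH, BB, Finset.mem_filter, Finset.mem_product, Fintype.mem_piFinset,
        Finset.mem_biUnion, Finset.mem_image, Prod.mk.injEq, hC]
      constructor
      · rintro ⟨⟨h1, h2⟩, h3⟩
        exact ⟨b, h1, c, fun j => ⟨h2 j, fun i => h3 i j⟩, rfl, rfl⟩
      · rintro ⟨b', hb', c', hc', rfl, rfl⟩
        exact ⟨⟨hb', fun j => (hc' j).1⟩, fun i j => (hc' j).2 i⟩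
    rw [e1, Finset.card_biUnion]
    · push_cast
      apply Finset.sum_congr rfl
      intro b _
      rw [Finset.card_image_of_injective _ (fun c c' h => (Prod.mk.inj h).2),
        Fintype.card_piFinset]
      simp
    · intro b _ b' _ hbb
      rw [Function.onFun, Finset.disjoint_left]
      rintro ⟨x, y⟩ hx hy
      rw [Finset.mem_image] at hx hy
      obtain ⟨_, _, h1⟩ := hx
      obtain ⟨_, _, h2⟩ := hy
      exact hbb ((Prod.mk.inj h1).1.trans (Prod.mk.inj h2).1.symm)
  have h3 : ed G N ^ (s + 1) ≤ (N.card : ℝ) ^ s * ∑ b ∈ BB N s, ((C b).card : ℝ) := by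
    rw [← h1]
    exact pow_sum_le_card_mul_sum_pow (fun i _ => Nat.cast_nonneg _) s
  have h4 : (∑ b ∈ BB N s, ((C b).card : ℝ)) ^ (s + 1) ≤
      ((BB N s).card : ℝ) ^ s * ∑ b ∈ BB N s, ((C b).card : ℝ) ^ (s + 1) :=
    pow_sum_le_card_mul_sum_pow (fun i _ => Nat.cast_nonneg _) s
  rw [card_BB] at h4
  have h0 : 0 ≤ ed G N := Finset.sum_nonneg (fun _ _ => Nat.cast_nonneg _)
  calc ed G N ^ ((s + 1) * (s + 1)) = (ed G N ^ (s + 1)) ^ (s + 1) := by rw [pow_mul]
    _ ≤ ((N.card : ℝ) ^ s * ∑ b ∈ BB N s, ((C b).card : ℝ)) ^ (s + 1) :=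
        pow_le_pow_left₀ (pow_nonneg h0 _) h3 _
    _ = ((N.card : ℝ) ^ s) ^ (s + 1) * (∑ b ∈ BB N s, ((C b).card : ℝ)) ^ (s + 1) := by
        rw [mul_pow]
    _ ≤ ((N.card : ℝ) ^ s) ^ (s + 1) * (((N.card ^ (s + 1) : ℕ) : ℝ) ^ s *
          ∑ b ∈ BB N s, ((C b).card : ℝ) ^ (s + 1)) :=
        mul_le_mul_of_nonneg_left h4 (by positivity)
    _ = (N.card : ℝ) ^ (2 * (s * (s + 1))) * ((HH G N s).card : ℝ) := by
        rw [h2]
        push_cast
        ring

/-- maps with two equal values -/
theorem card_eq_pair (N : Finset V) (s : ℕ) (i j : Fin (s + 1)) (hij : i ≠ j) :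
    ((BB N s).filter (fun b => b i = b j)).card ≤ N.card ^ s := by
  rcases N.eq_empty_or_nonempty with rfl | ⟨x0, hx0⟩
  · have : (BB (∅ : Finset V) s) = ∅ := by
      rw [← Finset.card_eq_zero, card_BB]
      simp
    rw [this]
    simp
  have h1 : ((BB N s).filter (fun b => b i = b j)).card ≤
      (Fintype.piFinset (fun k : Fin (s + 1) => if k = j then {x0} else N)).card := by
    apply Finset.card_le_card_of_injOn (fun b => Function.update b j x0)
    · intro b hb
      simp only [Finset.coe_filter, BB, Fintype.mem_piFinset, Set.mem_ofPred_eq] at hb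
      simp only [Finset.mem_coe, Fintype.mem_piFinset]
      intro k
      by_cases hk : k = j
      · subst hk
        simp
      · rw [Function.update_of_ne hk, if_neg hk]
        exact hb.1 k
    · intro b hb b' hb' h
      simp only [Finset.coe_filter, Set.mem_ofPred_eq] at hb hb'
      have hk : ∀ k, k ≠ j → b k = b' k := by
        intro k hk
        have := congrFun h k
        simpa [Function.update_of_ne hk] using this
      funext k
      by_cases hkj : k = j
      · subst hkj
        rw [← hb.2, ← hb'.2]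
        exact hk i hij
      · exact hk k hkj
  refine h1.trans (le_of_eq ?_)
  rw [Fintype.card_piFinset, ← Finset.mul_prod_erase univ _ (Finset.mem_univ j)]
  have : ∀ k ∈ univ.erase j, (if k = j then ({x0} : Finset V) else N).card = N.card := by
    intro k hk
    rw [if_neg (Finset.ne_of_mem_erase hk)]
  rw [Finset.prod_congr rfl this, Finset.prod_const, Finset.card_erase_of_mem (Finset.mem_univ j)]
  simp

/-- maps that are not injective -/
theorem card_noninj (N : Finset V) (s : ℕ) :
    ((BB N s).filter (fun b => ¬ Injective b)).card ≤ (s + 1) ^ 2 * N.card ^ s := by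
  have hsub : (BB N s).filter (fun b => ¬ Injective b) ⊆
      ((univ : Finset (Fin (s + 1) × Fin (s + 1))).filter (fun p => p.1 ≠ p.2)).biUnion
        (fun p => (BB N s).filter (fun b => b p.1 = b p.2)) := by
    intro b hb
    rw [Finset.mem_filter] at hb
    obtain ⟨hb1, hb2⟩ := hb
    unfold Injective at hb2
    push Not at hb2
    obtain ⟨i, j, hij, hne⟩ := hb2
    rw [Finset.mem_biUnion]
    exact ⟨(i, j), by simpa using hne, by simpa using ⟨hb1, hij⟩⟩
  refine (Finset.card_le_card hsub).trans ?_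
  refine (Finset.card_biUnion_le_card_mul _ _ (N.card ^ s) ?_).trans ?_
  · intro p hp
    rw [Finset.mem_filter] at hp
    exact card_eq_pair N s p.1 p.2 hp.2
  · apply Nat.mul_le_mul_right
    refine (Finset.card_filter_le _ _).trans ?_
    rw [Finset.card_univ, Fintype.card_prod, Fintype.card_fin]
    exact le_of_eq (by ring)

/-- the number of homomorphisms of `K_{s+1,s+1}` -/
theorem card_HH (G : SimpleGraph V) (S : Finset V) (s D : ℕ) (hD : ∀ x ∈ S, (nb G S x).card ≤ D) :
    (HH G S s).card ≤ S.card * D ^ (2 * s + 1) := by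
  set r : (Fin (s + 1) → V) × (Fin (s + 1) → V) → V × (Fin (s + 1) → V) :=
    fun p => (p.1 0, p.2) with hr
  have h1 : (HH G S s).card ≤ D ^ s * ((HH G S s).image r).card := by
    apply Finset.card_le_mul_card_image
    rintro ⟨x, c⟩ hx
    rw [Finset.mem_image] at hx
    obtain ⟨⟨b0, c0⟩, h0, h0'⟩ := hx
    simp only [hr, Prod.mk.injEq] at h0'
    obtain ⟨rfl, rfl⟩ := h0'
    simp only [HH, BB, Finset.mem_filter, Finset.mem_product, Fintype.mem_piFinset] at h0
    have hle : ((HH G S s).filter (fun p => r p = (b0 0, c0))).card ≤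
        (Fintype.piFinset (fun _ : Fin s => nb G S (c0 0))).card := by
      apply Finset.card_le_card_of_injOn (fun p => fun i => p.1 i.succ)
      · intro p hp
        simp only [Finset.coe_filter, HH, BB, Finset.mem_filter, Finset.mem_product,
          Fintype.mem_piFinset, Set.mem_ofPred_eq, hr, Prod.mk.injEq] at hp
        simp only [Finset.mem_coe, Fintype.mem_piFinset]
        intro i
        rw [mem_nb]
        refine ⟨hp.1.1.1 _, ?_⟩
        have := hp.1.2 i.succ 0
        rw [hp.2.2] at this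
        exact this.symm
      · rintro ⟨b, c⟩ hp ⟨b', c'⟩ hp' h
        simp only [Finset.coe_filter, Set.mem_ofPred_eq, hr, Prod.mk.injEq] at hp hp' h
        have : b = b' := by
          funext i
          refine Fin.cases ?_ (fun i => ?_) i
          · rw [hp.2.1, hp'.2.1]
          · exact congrFun h i
        rw [this, hp.2.2, hp'.2.2]
    refine hle.trans ?_
    rw [Fintype.card_piFinset]
    simp only [Finset.prod_const, Finset.card_univ, Fintype.card_fin]
    exact Nat.pow_le_pow_left (hD _ (h0.1.2 0)) s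
  have h2 : ((HH G S s).image r).card ≤ S.card * D ^ (s + 1) := by
    have hsub : (HH G S s).image r ⊆ S.biUnion (fun x =>
        (Fintype.piFinset (fun _ : Fin (s + 1) => nb G S x)).image (fun c => (x, c))) := by
      intro q hq
      rw [Finset.mem_image] at hq
      obtain ⟨⟨b, c⟩, h0, rfl⟩ := hq
      simp only [HH, BB, Finset.mem_filter, Finset.mem_product, Fintype.mem_piFinset] at h0
      rw [Finset.mem_biUnion]
      refine ⟨b 0, h0.1.1 0, ?_⟩
      rw [Finset.mem_image]
      refine ⟨c, ?_, rfl⟩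
      rw [Fintype.mem_piFinset]
      intro j
      exact mem_nb.2 ⟨h0.1.2 j, h0.2 0 j⟩
    refine (Finset.card_le_card hsub).trans ?_
    refine Finset.card_biUnion_le_card_mul _ _ (D ^ (s + 1)) ?_
    intro x hx
    refine Finset.card_image_le.trans ?_
    rw [Fintype.card_piFinset]
    simp only [Finset.prod_const, Finset.card_univ, Fintype.card_fin]
    exact Nat.pow_le_pow_left (hD _ hx) _
  calc (HH G S s).card ≤ D ^ s * (S.card * D ^ (s + 1)) := h1.trans (Nat.mul_le_mul_left _ h2)
    _ = S.card * D ^ (2 * s + 1) := by ring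

/-- the number of triangles, in the form of homomorphisms of `K_{1,s+1,s+1}` -/
theorem sum_HH (G : SimpleGraph V) (S : Finset V) (s D : ℕ) (hG : Free3 G (s + 1))
    (hD : ∀ x ∈ S, (nb G S x).card ≤ D) :
    ∑ x ∈ S, (HH G (nb G S x) s).card ≤ 3 * (s + 1) ^ 2 * (S.card * D ^ (2 * s + 1)) := by
  -- injective pairs
  set good : (Fin (s + 1) → V) × (Fin (s + 1) → V) → Prop :=
    fun p => Injective p.1 ∧ Injective p.2 with hgood
  have h1 : ∀ x ∈ S, (HH G (nb G S x) s).card ≤
      ((HH G (nb G S x) s).filter good).card + 2 * (s + 1) ^ 2 * D ^ (2 * s + 1) := by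
    intro x hx
    rw [← Finset.card_filter_add_card_filter_not (s := HH G (nb G S x) s) good]
    apply Nat.add_le_add_left
    set N := nb G S x with hN
    have hsub : (HH G N s).filter (fun p => ¬ good p) ⊆
        ((BB N s).filter (fun b => ¬ Injective b)) ×ˢ (BB N s) ∪
        (BB N s) ×ˢ ((BB N s).filter (fun b => ¬ Injective b)) := by
      rintro ⟨b, c⟩ hp
      simp only [HH, Finset.mem_filter, Finset.mem_product, hgood] at hp
      rw [Finset.mem_union, Finset.mem_product, Finset.mem_product, Finset.mem_filter,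
        Finset.mem_filter]
      by_cases hb : Injective b
      · right
        exact ⟨hp.1.1.1, hp.1.1.2, fun hc => hp.2 ⟨hb, hc⟩⟩
      · left
        exact ⟨⟨hp.1.1.1, hb⟩, hp.1.1.2⟩
    refine (Finset.card_le_card hsub).trans ?_
    refine (Finset.card_union_le _ _).trans ?_
    rw [Finset.card_product, Finset.card_product, card_BB]
    have h2 := card_noninj N s
    have h3 : N.card ≤ D := hD x hx
    have h4 : N.card ^ s * N.card ^ (s + 1) ≤ D ^ (2 * s + 1) := by
      calc N.card ^ s * N.card ^ (s + 1) = N.card ^ (2 * s + 1) := by ring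
        _ ≤ D ^ (2 * s + 1) := Nat.pow_le_pow_left h3 _
    calc _ ≤ (s + 1) ^ 2 * N.card ^ s * N.card ^ (s + 1) +
          N.card ^ (s + 1) * ((s + 1) ^ 2 * N.card ^ s) :=
          Nat.add_le_add (Nat.mul_le_mul_right _ h2) (Nat.mul_le_mul_left _ h2)
      _ = 2 * (s + 1) ^ 2 * (N.card ^ s * N.card ^ (s + 1)) := by ring
      _ ≤ 2 * (s + 1) ^ 2 * D ^ (2 * s + 1) := Nat.mul_le_mul_left _ h4
  have h2 : ∑ x ∈ S, ((HH G (nb G S x) s).filter good).card ≤ (s + 1) * (HH G S s).card := by
    have e1 : ∀ x ∈ S, ((HH G (nb G S x) s).filter good).card =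
        ∑ p ∈ (HH G S s).filter good,
          (if (∀ i, G.Adj x (p.1 i)) ∧ (∀ j, G.Adj x (p.2 j)) then 1 else 0) := by
      intro x _
      rw [← Finset.sum_filter, Finset.sum_const, smul_eq_mul, mul_one]
      apply congrArg
      ext ⟨b, c⟩
      simp only [HH, BB, Finset.mem_filter, Finset.mem_product, Fintype.mem_piFinset, mem_nb]
      constructor
      · rintro ⟨⟨⟨h1, h2⟩, h3⟩, h4⟩
        exact ⟨⟨⟨⟨fun i => (h1 i).1, fun i => (h2 i).1⟩, h3⟩, h4⟩, fun i => (h1 i).2,
          fun i => (h2 i).2⟩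
      · rintro ⟨⟨⟨⟨h1, h2⟩, h3⟩, h4⟩, h5, h6⟩
        exact ⟨⟨⟨fun i => ⟨h1 i, h5 i⟩, fun i => ⟨h2 i, h6 i⟩⟩, h3⟩, h4⟩
    rw [Finset.sum_congr rfl e1, Finset.sum_comm]
    calc _ ≤ ∑ p ∈ (HH G S s).filter good, (s + 1) := by
          apply Finset.sum_le_sum
          rintro ⟨b, c⟩ hp
          rw [← Finset.sum_filter, Finset.sum_const, smul_eq_mul, mul_one]
          by_contra hcon
          push Not at hcon
          rw [Finset.mem_filter] at hp
          have hc : Fintype.card (Fin (s + 1)) ≤ (S.filter (fun x =>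
              (∀ i, G.Adj x (b i)) ∧ (∀ j, G.Adj x (c j)))).card := by
            rw [Fintype.card_fin]; exact hcon.le
          rw [← Fintype.card_coe] at hc
          obtain ⟨g⟩ := Function.Embedding.nonempty_of_card_le hc
          apply hG
          refine ⟨fun i => (g i : V), b, c, ?_, hp.2.1, hp.2.2, ?_, ?_, ?_⟩
          · intro i j h
            exact g.injective (Subtype.ext h)
          · intro i j
            exact (Finset.mem_filter.1 (g i).2).2.1 j
          · intro i j
            exact (Finset.mem_filter.1 (g i).2).2.2 j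
          · exact (Finset.mem_filter.1 hp.1).2
      _ = ((HH G S s).filter good).card * (s + 1) := by rw [Finset.sum_const, smul_eq_mul]
      _ ≤ (HH G S s).card * (s + 1) := Nat.mul_le_mul_right _ (Finset.card_filter_le _ _)
      _ = _ := by ring
  have h3 := card_HH G S s D hD
  calc ∑ x ∈ S, (HH G (nb G S x) s).card
      ≤ ∑ x ∈ S, (((HH G (nb G S x) s).filter good).card + 2 * (s + 1) ^ 2 * D ^ (2 * s + 1)) :=
        Finset.sum_le_sum h1
    _ = ∑ x ∈ S, ((HH G (nb G S x) s).filter good).card +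
        S.card * (2 * (s + 1) ^ 2 * D ^ (2 * s + 1)) := by
        rw [Finset.sum_add_distrib, Finset.sum_const, smul_eq_mul]
    _ ≤ (s + 1) * (S.card * D ^ (2 * s + 1)) + S.card * (2 * (s + 1) ^ 2 * D ^ (2 * s + 1)) :=
        Nat.add_le_add_right (h2.trans (Nat.mul_le_mul_left _ h3)) _
    _ = ((s + 1) + 2 * (s + 1) ^ 2) * (S.card * D ^ (2 * s + 1)) := by ring
    _ ≤ (3 * (s + 1) ^ 2) * (S.card * D ^ (2 * s + 1)) := by
        apply Nat.mul_le_mul_right
        nlinarith [Nat.zero_le s]

/-- **Few triangles.** In a graph without `K_{s+1,s+1,s+1}` in which all degrees are at most `D`,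
the sum of the numbers `2 e(N(x))` is at most `|S| D^2` up to the factor `(3 (s+1)^2 / D)^(1/k)`,
`k = (s + 1)^2`. -/
theorem few (G : SimpleGraph V) (S : Finset V) (s D : ℕ) (hG : Free3 G (s + 1))
    (hD : ∀ x ∈ S, (nb G S x).card ≤ D) :
    (∑ x ∈ S, ed G (nb G S x)) ^ ((s + 1) * (s + 1)) ≤
      3 * ((s:ℝ) + 1) ^ 2 * (S.card : ℝ) ^ ((s + 1) * (s + 1)) *
        (D : ℝ) ^ (2 * ((s + 1) * (s + 1)) - 1) := by
  obtain ⟨m, hm⟩ : ∃ m, (s + 1) * (s + 1) = m + 1 := ⟨s * s + 2 * s, by ring⟩
  have h1 : (∑ x ∈ S, ed G (nb G S x)) ^ (m + 1) ≤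
      (S.card : ℝ) ^ m * ∑ x ∈ S, ed G (nb G S x) ^ (m + 1) :=
    pow_sum_le_card_mul_sum_pow (fun i _ => Finset.sum_nonneg (fun _ _ => Nat.cast_nonneg _)) m
  have h2 : ∑ x ∈ S, ed G (nb G S x) ^ (m + 1) ≤
      (D : ℝ) ^ (2 * (s * (s + 1))) * (3 * ((s:ℝ) + 1) ^ 2 * ((S.card : ℝ) * (D:ℝ) ^ (2 * s + 1))) := by
    calc ∑ x ∈ S, ed G (nb G S x) ^ (m + 1)
        ≤ ∑ x ∈ S, (D : ℝ) ^ (2 * (s * (s + 1))) * ((HH G (nb G S x) s).card : ℝ) := by
          apply Finset.sum_le_sum
          intro x hx
          rw [← hm]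
          refine (lower G (nb G S x) s).trans ?_
          apply mul_le_mul_of_nonneg_right _ (Nat.cast_nonneg _)
          apply pow_le_pow_left₀ (Nat.cast_nonneg _)
          exact_mod_cast hD x hx
      _ = (D : ℝ) ^ (2 * (s * (s + 1))) * ((∑ x ∈ S, (HH G (nb G S x) s).card : ℕ) : ℝ) := by
          rw [← Finset.mul_sum]
          push_cast
          rfl
      _ ≤ _ := by
          apply mul_le_mul_of_nonneg_left _ (by positivity)
          have := sum_HH G S s D hG hD
          exact_mod_cast this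
  rw [hm]
  refine h1.trans ((mul_le_mul_of_nonneg_left h2 (by positivity)).trans (le_of_eq ?_))
  have e : 2 * (m + 1) - 1 = 2 * (s * (s + 1)) + (2 * s + 1) := by
    rw [← hm]
    have : 2 * ((s + 1) * (s + 1)) = 2 * (s * (s + 1)) + (2 * s + 1) + 1 := by ring
    omega
  rw [e, pow_add, pow_succ]
  ring

end Pool.Agent.Q179.CF
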