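import Mathlib
import Pool.Agent.Q179.CF.Super

set_option autoImplicit false

/-!
# A weighted form of Shearer's induction
-/

namespace Pool.Agent.Q179.CF

open Finset Function
open scoped Classical

set_option linter.unusedSectionVars false

variable {V : Type} [Fintype V]

/-- independent sets -/
def Ind (G : SimpleGraph V) (I : Finset V) : Prop := ∀ x ∈ I, ∀ y ∈ I, ¬ G.Adj x y

/-- adjacency as a number -/
noncomputable def e (G : SimpleGraph V) (x y : V) : ℝ := if G.Adj x y then 1 else 0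

/-- degree in `S` -/
noncomputable def dg (G : SimpleGraph V) (S : Finset V) (x : V) : ℝ := ∑ y ∈ S, e G x y

/-- total weight -/
noncomputable def Wt (ρ : V → ℝ) (S : Finset V) : ℝ := ∑ x ∈ S, ρ x

/-- weighted sum of the degrees -/
noncomputable def At (G : SimpleGraph V) (ρ : V → ℝ) (S : Finset V) : ℝ :=
  ∑ x ∈ S, ∑ y ∈ S, ρ x * e G x y

/-- weighted number of triangles -/
noncomputable def Th (G : SimpleGraph V) (ρ : V → ℝ) (S : Finset V) : ℝ :=
  ∑ x ∈ S, ∑ y ∈ S, ρ x * (e G x y * ∑ v ∈ S, e G v x * e G v y)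

theorem e_symm (G : SimpleGraph V) (x y : V) : e G x y = e G y x := by
  unfold e
  simp [G.adj_comm]

theorem e_self (G : SimpleGraph V) (x : V) : e G x x = 0 := by simp [e]

theorem e_nonneg (G : SimpleGraph V) (x y : V) : 0 ≤ e G x y := by
  unfold e
  split_ifs <;> norm_num

theorem card_nb (G : SimpleGraph V) (S : Finset V) (x : V) : ((nb G S x).card : ℝ) = dg G S x := by
  unfold nb dg e
  rw [← Finset.sum_filter, Finset.sum_const, nsmul_eq_mul, mul_one]

/-- the vertices that survive if `v` is chosen -/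
noncomputable def cl (G : SimpleGraph V) (S : Finset V) (v : V) : Finset V :=
  S.filter (fun y => ¬ G.Adj v y ∧ y ≠ v)

/-- survival as a number -/
noncomputable def sv (G : SimpleGraph V) (v y : V) : ℝ := 1 - e G v y - (if v = y then 1 else 0)

theorem sv_eq (G : SimpleGraph V) (v y : V) :
    sv G v y = if (¬ G.Adj v y ∧ y ≠ v) then 1 else 0 := by
  unfold sv e
  by_cases h1 : v = y
  · subst h1
    simp
  · by_cases h2 : G.Adj v y
    · simp [h1, h2]
    · simp [h1, h2, Ne.symm h1]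

theorem sum_cl (G : SimpleGraph V) (S : Finset V) (v : V) (f : V → ℝ) :
    ∑ y ∈ cl G S v, f y = ∑ y ∈ S, f y * sv G v y := by
  unfold cl
  rw [Finset.sum_filter]
  apply Finset.sum_congr rfl
  intro y _
  rw [sv_eq]
  split_ifs <;> simp

theorem sum_sv (G : SimpleGraph V) (S : Finset V) (y : V) (hy : y ∈ S) :
    ∑ v ∈ S, sv G v y = (S.card : ℝ) - dg G S y - 1 := by
  unfold sv dg
  rw [Finset.sum_sub_distrib, Finset.sum_sub_distrib, Finset.sum_const, nsmul_eq_mul, mul_one,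
    Finset.sum_ite_eq' S y (fun _ => (1:ℝ)), if_pos hy]
  congr 2
  apply Finset.sum_congr rfl
  intro v _
  rw [e_symm]

theorem sum_sv2 (G : SimpleGraph V) (S : Finset V) (y z : V) (hy : y ∈ S) (hz : z ∈ S) :
    e G y z * ∑ v ∈ S, sv G v y * sv G v z =
      e G y z * ((S.card : ℝ) - dg G S y - dg G S z + ∑ v ∈ S, e G v y * e G v z) := by
  by_cases h : G.Adj y z
  · have hne : y ≠ z := h.ne
    have e1 : e G y z = 1 := by simp [e, h]
    have e2 : e G z y = 1 := by rw [e_symm, e1]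
    rw [e1, one_mul, one_mul]
    have h1 : ∀ v ∈ S, sv G v y * sv G v z = 1 - e G v y - e G v z + e G v y * e G v z
        - (if v = y then (1 - e G v z) else 0) - (if v = z then (1 - e G v y) else 0) := by
      intro v _
      unfold sv
      by_cases h2 : v = y
      · subst h2
        rw [if_pos rfl, if_neg hne, if_pos rfl, if_neg hne]
        ring
      · by_cases h3 : v = z
        · subst h3
          rw [if_neg h2, if_pos rfl, if_neg h2, if_pos rfl]
          ring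
        · rw [if_neg h2, if_neg h3, if_neg h2, if_neg h3]
          ring
    rw [Finset.sum_congr rfl h1, Finset.sum_sub_distrib, Finset.sum_sub_distrib,
      Finset.sum_add_distrib, Finset.sum_sub_distrib, Finset.sum_sub_distrib, Finset.sum_const,
      nsmul_eq_mul, mul_one, Finset.sum_ite_eq' S y, if_pos hy, Finset.sum_ite_eq' S z, if_pos hz,
      e1, e2]
    have d1 : ∑ v ∈ S, e G v y = dg G S y := Finset.sum_congr rfl fun v _ => e_symm G v y
    have d2 : ∑ v ∈ S, e G v z = dg G S z := Finset.sum_congr rfl fun v _ => e_symm G v z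
    rw [d1, d2]
    ring
  · have e1 : e G y z = 0 := by simp [e, h]
    rw [e1, zero_mul, zero_mul]

theorem Wt_cl (G : SimpleGraph V) (ρ : V → ℝ) (S : Finset V) :
    ∑ v ∈ S, Wt ρ (cl G S v) = (S.card : ℝ) * Wt ρ S - ∑ x ∈ S, ρ x * (dg G S x + 1) := by
  have h1 : ∀ v ∈ S, Wt ρ (cl G S v) = ∑ y ∈ S, ρ y * sv G v y := fun v _ => sum_cl G S v ρ
  rw [Finset.sum_congr rfl h1, Finset.sum_comm]
  have h2 : ∀ y ∈ S, ∑ v ∈ S, ρ y * sv G v y =
      (S.card : ℝ) * ρ y - ρ y * (dg G S y + 1) := by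
    intro y hy
    rw [← Finset.mul_sum, sum_sv G S y hy]
    ring
  rw [Finset.sum_congr rfl h2, Finset.sum_sub_distrib, ← Finset.mul_sum]
  rfl

theorem At_cl (G : SimpleGraph V) (ρ : V → ℝ) (S : Finset V) :
    ∑ v ∈ S, At G ρ (cl G S v) = (S.card : ℝ) * At G ρ S - ∑ x ∈ S, ρ x * dg G S x ^ 2
      - ∑ x ∈ S, ∑ y ∈ S, ρ x * e G x y * dg G S y + Th G ρ S := by
  have h1 : ∀ v ∈ S, At G ρ (cl G S v) =
      ∑ y ∈ S, ∑ z ∈ S, ρ y * (e G y z * (sv G v y * sv G v z)) := by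
    intro v _
    unfold At
    rw [sum_cl G S v]
    apply Finset.sum_congr rfl
    intro y _
    rw [sum_cl G S v, Finset.sum_mul]
    apply Finset.sum_congr rfl
    intro z _
    ring
  rw [Finset.sum_congr rfl h1, Finset.sum_comm]
  have h2 : ∀ y ∈ S, ∑ v ∈ S, ∑ z ∈ S, ρ y * (e G y z * (sv G v y * sv G v z)) =
      (S.card : ℝ) * (∑ z ∈ S, ρ y * e G y z) - ρ y * dg G S y ^ 2
      - (∑ z ∈ S, ρ y * e G y z * dg G S z) +
        ∑ z ∈ S, ρ y * (e G y z * ∑ v ∈ S, e G v y * e G v z) := by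
    intro y hy
    rw [Finset.sum_comm]
    have h3 : ∀ z ∈ S, ∑ v ∈ S, ρ y * (e G y z * (sv G v y * sv G v z)) =
        (S.card : ℝ) * (ρ y * e G y z) - ρ y * dg G S y * e G y z - ρ y * e G y z * dg G S z +
          ρ y * (e G y z * ∑ v ∈ S, e G v y * e G v z) := by
      intro z hz
      rw [← Finset.mul_sum, ← Finset.mul_sum, sum_sv2 G S y z hy hz]
      ring
    rw [Finset.sum_congr rfl h3, Finset.sum_add_distrib, Finset.sum_sub_distrib,
      Finset.sum_sub_distrib, ← Finset.mul_sum]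
    congr 3
    rw [← Finset.mul_sum]
    have : ∑ z ∈ S, e G y z = dg G S y := rfl
    rw [this]
    ring
  rw [Finset.sum_congr rfl h2, Finset.sum_add_distrib, Finset.sum_sub_distrib,
    Finset.sum_sub_distrib, ← Finset.mul_sum]
  rfl

theorem Wt_erase (ρ : V → ℝ) (S : Finset V) (x : V) (hx : x ∈ S) :
    Wt ρ (S.erase x) = Wt ρ S - ρ x := by
  unfold Wt
  rw [← Finset.sum_erase_add S _ hx]
  ring

theorem At_erase (G : SimpleGraph V) (ρ : V → ℝ) (S : Finset V) (x : V) (hx : x ∈ S) :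
    At G ρ (S.erase x) = At G ρ S - ρ x * dg G S x - ∑ y ∈ S, ρ y * e G y x := by
  unfold At
  have h1 : ∑ y ∈ S, ∑ z ∈ S, ρ y * e G y z =
      ∑ y ∈ S.erase x, ∑ z ∈ S, ρ y * e G y z + ∑ z ∈ S, ρ x * e G x z :=
    (Finset.sum_erase_add S _ hx).symm
  have h2 : ∀ y ∈ S.erase x, ∑ z ∈ S, ρ y * e G y z =
      ∑ z ∈ S.erase x, ρ y * e G y z + ρ y * e G y x :=
    fun y _ => (Finset.sum_erase_add S _ hx).symm
  have h3 : ∑ y ∈ S, ρ y * e G y x = ∑ y ∈ S.erase x, ρ y * e G y x := by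
    rw [← Finset.sum_erase_add S _ hx, e_self, mul_zero, add_zero]
  rw [h1, Finset.sum_congr rfl h2, Finset.sum_add_distrib, h3, ← Finset.mul_sum]
  unfold dg
  ring

theorem At_eq (G : SimpleGraph V) (ρ : V → ℝ) (S : Finset V) :
    At G ρ S = ∑ x ∈ S, ρ x * dg G S x := by
  unfold At dg
  apply Finset.sum_congr rfl
  intro x _
  rw [Finset.mul_sum]

/-- The average over all moves. -/
theorem average (G : SimpleGraph V) (ρ : V → ℝ) (S : Finset V) (p q D α : ℝ)
    (hD : ∀ x ∈ S, dg G S x ≤ D) (hS : S.Nonempty)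
    (h1 : ∀ v ∈ S, ρ v + (p * Wt ρ (cl G S v) - q * At G ρ (cl G S v)) ≤ α)
    (h2 : ∀ x ∈ S, p * Wt ρ (S.erase x) - q * At G ρ (S.erase x) ≤ α)
    (h3 : 0 ≤ Wt ρ S - p * (D + 1) * Wt ρ S + q * (2 * D * At G ρ S - Th G ρ S)) :
    p * Wt ρ S - q * At G ρ S ≤ α := by
  have a1 : ∑ v ∈ S, (ρ v + (p * Wt ρ (cl G S v) - q * At G ρ (cl G S v))) ≤ (S.card : ℝ) * α := by
    calc _ ≤ ∑ v ∈ S, α := Finset.sum_le_sum h1
      _ = _ := by rw [Finset.sum_const, nsmul_eq_mul]
  have a2 : ∑ x ∈ S, (D - dg G S x) * (p * Wt ρ (S.erase x) - q * At G ρ (S.erase x)) ≤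
      ∑ x ∈ S, (D - dg G S x) * α := by
    apply Finset.sum_le_sum
    intro x hx
    exact mul_le_mul_of_nonneg_left (h2 x hx) (by linarith [hD x hx])
  rw [← Finset.sum_mul] at a2
  set N : ℝ := ∑ x ∈ S, (D - dg G S x) with hN
  have hN0 : 0 ≤ N := Finset.sum_nonneg fun x hx => by linarith [hD x hx]
  have e1 : ∑ v ∈ S, (ρ v + (p * Wt ρ (cl G S v) - q * At G ρ (cl G S v))) =
      Wt ρ S + (p * ((S.card : ℝ) * Wt ρ S - ∑ x ∈ S, ρ x * (dg G S x + 1)) -
        q * ((S.card : ℝ) * At G ρ S - ∑ x ∈ S, ρ x * dg G S x ^ 2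
      - ∑ x ∈ S, ∑ y ∈ S, ρ x * e G x y * dg G S y + Th G ρ S)) := by
    rw [Finset.sum_add_distrib, Finset.sum_sub_distrib, ← Finset.mul_sum, ← Finset.mul_sum,
      Wt_cl, At_cl]
    rfl
  have e2 : ∑ x ∈ S, (D - dg G S x) * (p * Wt ρ (S.erase x) - q * At G ρ (S.erase x)) =
      N * (p * Wt ρ S - q * At G ρ S) - p * ∑ x ∈ S, (D - dg G S x) * ρ x +
        q * (∑ x ∈ S, (D - dg G S x) * (ρ x * dg G S x) +
          ∑ x ∈ S, (D - dg G S x) * ∑ y ∈ S, ρ y * e G y x) := by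
    have : ∀ x ∈ S, (D - dg G S x) * (p * Wt ρ (S.erase x) - q * At G ρ (S.erase x)) =
        (D - dg G S x) * (p * Wt ρ S - q * At G ρ S) - p * ((D - dg G S x) * ρ x) +
        (q * ((D - dg G S x) * (ρ x * dg G S x)) +
          q * ((D - dg G S x) * ∑ y ∈ S, ρ y * e G y x)) := by
      intro x hx
      rw [Wt_erase ρ S x hx, At_erase G ρ S x hx]
      ring
    rw [Finset.sum_congr rfl this, Finset.sum_add_distrib, Finset.sum_sub_distrib,
      Finset.sum_add_distrib, ← Finset.sum_mul, ← Finset.mul_sum, ← Finset.mul_sum,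
      ← Finset.mul_sum, mul_add]
  have e3 : ∑ x ∈ S, (D - dg G S x) * ∑ y ∈ S, ρ y * e G y x =
      D * At G ρ S - ∑ x ∈ S, ∑ y ∈ S, ρ x * e G x y * dg G S y := by
    have s1 : At G ρ S = ∑ x ∈ S, ∑ y ∈ S, ρ y * e G y x := by
      unfold At
      rw [Finset.sum_comm]
    have s2 : ∑ x ∈ S, ∑ y ∈ S, ρ x * e G x y * dg G S y =
        ∑ x ∈ S, dg G S x * ∑ y ∈ S, ρ y * e G y x := by
      rw [Finset.sum_comm]
      apply Finset.sum_congr rfl
      intro x _
      rw [Finset.mul_sum]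
      apply Finset.sum_congr rfl
      intro y _
      ring
    rw [s1, s2, Finset.mul_sum, ← Finset.sum_sub_distrib]
    apply Finset.sum_congr rfl
    intro x _
    ring
  have e4 : ∑ x ∈ S, (D - dg G S x) * (ρ x * dg G S x) =
      D * At G ρ S - ∑ x ∈ S, ρ x * dg G S x ^ 2 := by
    rw [At_eq, Finset.mul_sum, ← Finset.sum_sub_distrib]
    apply Finset.sum_congr rfl
    intro x _
    ring
  have e5 : ∑ x ∈ S, ρ x * (dg G S x + 1) + ∑ x ∈ S, (D - dg G S x) * ρ x =
      (D + 1) * Wt ρ S := by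
    unfold Wt
    rw [← Finset.sum_add_distrib, Finset.mul_sum]
    apply Finset.sum_congr rfl
    intro x _
    ring
  rw [e1] at a1
  rw [e2, e3, e4] at a2
  have hc : (0:ℝ) < S.card := by exact_mod_cast hS.card_pos
  have key : ((S.card : ℝ) + N) * (p * Wt ρ S - q * At G ρ S) ≤ ((S.card : ℝ) + N) * α := by
    have e6 : ∑ x ∈ S, (D - dg G S x) * ρ x =
        (D + 1) * Wt ρ S - ∑ x ∈ S, ρ x * (dg G S x + 1) := by linarith
    rw [e6] at a2
    nlinarith [a1, a2, h3]
  exact le_of_mul_le_mul_left key (by linarith)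

end Pool.Agent.Q179.CF
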