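import Mathlib
import Pool.Agent.Q179.CF.Induct

set_option autoImplicit false

/-!
# Arbitrary weights
-/

namespace Pool.Agent.Q179.CF

open Finset Function Filter
open scoped Classical

set_option linter.unusedSectionVars false

section
variable {V : Type} [Fintype V]

theorem Wt_nonneg {ρ : V → ℝ} (hρ : ∀ x, 0 ≤ ρ x) (S : Finset V) : 0 ≤ Wt ρ S :=
  Finset.sum_nonneg fun x _ => hρ x

theorem Wt_mono {ρ : V → ℝ} (hρ : ∀ x, 0 ≤ ρ x) {S T : Finset V} (h : S ⊆ T) :
    Wt ρ S ≤ Wt ρ T := Finset.sum_le_sum_of_subset_of_nonneg h fun x _ _ => hρ x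

theorem Wt_union {ρ : V → ℝ} {S T : Finset V} (h : Disjoint S T) :
    Wt ρ (S ∪ T) = Wt ρ S + Wt ρ T := Finset.sum_union h

/-- colouring a large portion of `B` greedily, with a set of forbidden vertices for each colour -/
theorem some_colour (G : SimpleGraph V) {ρ : V → ℝ} (hρ : ∀ x, 0 ≤ ρ x) {γ : ℝ} (h0 : 0 ≤ γ)
    (h1 : γ ≤ 1) (B : Finset V)
    (hB : ∀ X ⊆ B, ∃ I ⊆ X, Ind G I ∧ γ * Wt ρ X ≤ Wt ρ I) (forb : ℕ → Finset V) :
    ∀ m : ℕ, ∃ J : ℕ → Finset V, (∀ c < m, J c ⊆ B ∧ Disjoint (J c) (forb c) ∧ Ind G (J c)) ∧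
      (∀ c < m, ∀ c' < m, c ≠ c' → Disjoint (J c) (J c')) ∧
      Wt ρ B - ∑ c ∈ Finset.range m, Wt ρ (J c) ≤
        (1 - γ) ^ m * Wt ρ B + γ * ∑ c ∈ Finset.range m, Wt ρ (B ∩ forb c) := by
  intro m
  induction m with
  | zero =>
    refine ⟨fun _ => ∅, fun c hc => absurd hc (Nat.not_lt_zero _),
      fun c hc => absurd hc (Nat.not_lt_zero _), ?_⟩
    simp
  | succ m ih =>
    obtain ⟨J, hJ1, hJ2, hJ3⟩ := ih
    set P : Finset V := (Finset.range m).biUnion J with hP
    set U : Finset V := B \ P with hU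
    have hPB : P ⊆ B := by
      intro x hx
      rw [hP, Finset.mem_biUnion] at hx
      obtain ⟨c, hc, hxc⟩ := hx
      exact (hJ1 c (Finset.mem_range.1 hc)).1 hxc
    have hWP : Wt ρ P = ∑ c ∈ Finset.range m, Wt ρ (J c) := by
      unfold Wt
      rw [hP, Finset.sum_biUnion]
      intro c hc c' hc' hne
      exact hJ2 c (by simpa using hc) c' (by simpa using hc') hne
    have hWU : Wt ρ U = Wt ρ B - ∑ c ∈ Finset.range m, Wt ρ (J c) := by
      rw [← hWP]
      unfold Wt
      rw [hU, ← Finset.sum_sdiff hPB]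
      ring
    obtain ⟨I, hI1, hI2, hI3⟩ := hB (U \ forb m) (Finset.sdiff_subset.trans Finset.sdiff_subset)
    have hX : Wt ρ U - Wt ρ (B ∩ forb m) ≤ Wt ρ (U \ forb m) := by
      have a1 : Wt ρ U ≤ Wt ρ (U \ forb m ∪ B ∩ forb m) := by
        apply Wt_mono hρ
        intro x hx
        by_cases hxf : x ∈ forb m
        · exact Finset.mem_union_right _ (Finset.mem_inter.2 ⟨Finset.sdiff_subset hx, hxf⟩)
        · exact Finset.mem_union_left _ (Finset.mem_sdiff.2 ⟨hx, hxf⟩)
      have a2 : Disjoint (U \ forb m) (B ∩ forb m) := by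
        rw [Finset.disjoint_left]
        intro x hx hx'
        exact (Finset.mem_sdiff.1 hx).2 (Finset.mem_inter.1 hx').2
      rw [Wt_union a2] at a1
      linarith
    refine ⟨Function.update J m I, ?_, ?_, ?_⟩
    · intro c hc
      by_cases h : c = m
      · subst h
        rw [Function.update_self]
        refine ⟨hI1.trans (Finset.sdiff_subset.trans Finset.sdiff_subset), ?_, hI2⟩
        rw [Finset.disjoint_left]
        intro x hx
        exact (Finset.mem_sdiff.1 (hI1 hx)).2
      · rw [Function.update_of_ne h]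
        exact hJ1 c (by omega)
    · have hdis : ∀ c < m, Disjoint (J c) I := by
        intro c hc
        rw [Finset.disjoint_left]
        intro x hx hxI
        have h2 := (Finset.mem_sdiff.1 (hI1 hxI)).1
        rw [hU] at h2
        apply (Finset.mem_sdiff.1 h2).2
        rw [hP, Finset.mem_biUnion]
        exact ⟨c, Finset.mem_range.2 hc, hx⟩
      intro c hc c' hc' hne
      by_cases h : c = m
      · subst h
        rw [Function.update_self, Function.update_of_ne hne.symm]
        exact (hdis c' (by omega)).symm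
      · by_cases h' : c' = m
        · subst h'
          rw [Function.update_self, Function.update_of_ne h]
          exact hdis c (by omega)
        · rw [Function.update_of_ne h, Function.update_of_ne h']
          exact hJ2 c (by omega) c' (by omega) hne
    · rw [Finset.sum_range_succ, Finset.sum_range_succ, Function.update_self]
      have e1 : ∑ c ∈ Finset.range m, Wt ρ (Function.update J m I c) =
          ∑ c ∈ Finset.range m, Wt ρ (J c) := by
        apply Finset.sum_congr rfl
        intro c hc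
        rw [Function.update_of_ne (Finset.mem_range.1 hc).ne]
      rw [e1]
      have s1 : 0 ≤ ∑ c ∈ Finset.range m, Wt ρ (B ∩ forb c) :=
        Finset.sum_nonneg fun c _ => Wt_nonneg hρ _
      have s2 : γ * (Wt ρ U - Wt ρ (B ∩ forb m)) ≤ Wt ρ I :=
        (mul_le_mul_of_nonneg_left hX h0).trans hI3
      have s3 : (1 - γ) * Wt ρ U ≤ (1 - γ) * ((1 - γ) ^ m * Wt ρ B +
          γ * ∑ c ∈ Finset.range m, Wt ρ (B ∩ forb c)) := by
        apply mul_le_mul_of_nonneg_left _ (by linarith)
        rw [hWU]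
        exact hJ3
      have s4 : 0 ≤ γ * (γ * ∑ c ∈ Finset.range m, Wt ρ (B ∩ forb c)) := by positivity
      rw [pow_succ]
      nlinarith [s1, s2, s3, s4, hWU]

/-- the number of neighbours of `v` in earlier blocks -/
noncomputable def hh (G : SimpleGraph V) (T : Finset V) (j : V → ℤ) (v : V) : ℝ :=
  ∑ u ∈ T.filter (fun u => j u < j v), e G v u

theorem block_colour (G : SimpleGraph V) {ρ : V → ℝ} (hρ : ∀ x, 0 ≤ ρ x) {γ : ℝ} (h0 : 0 ≤ γ)
    (h1 : γ ≤ 1) (m : ℕ) (j : V → ℤ) : ∀ (n : ℕ) (T : Finset V), T.card = n →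
    (∀ i : ℤ, ∀ X ⊆ T, (∀ x ∈ X, j x = i) → ∃ I ⊆ X, Ind G I ∧ γ * Wt ρ X ≤ Wt ρ I) →
    ∃ J : ℕ → Finset V, (∀ c < m, J c ⊆ T ∧ Ind G (J c)) ∧
      (∀ c < m, ∀ c' < m, c ≠ c' → Disjoint (J c) (J c')) ∧
      (1 - (1 - γ) ^ m) * Wt ρ T - γ * ∑ v ∈ T, ρ v * hh G T j v ≤
        ∑ c ∈ Finset.range m, Wt ρ (J c) := by
  intro n
  induction n using Nat.strong_induction_on with
  | _ n ih =>
    intro T hT hgood
    rcases T.eq_empty_or_nonempty with rfl | hne
    · refine ⟨fun _ => ∅, fun c _ => ⟨subset_rfl, fun x hx => absurd hx (Finset.notMem_empty x)⟩,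
        fun c _ c' _ _ => Finset.disjoint_empty_left _, ?_⟩
      simp [Wt]
    obtain ⟨x0, hx0, hmax⟩ := Finset.exists_max_image T j hne
    set T' : Finset V := T.filter (fun v => j v < j x0) with hT'
    set B : Finset V := T.filter (fun v => j v = j x0) with hB
    have hsplit : T = T' ∪ B := by
      ext v
      simp only [hT', hB, Finset.mem_union, Finset.mem_filter]
      constructor
      · intro hv
        rcases lt_or_eq_of_le (hmax v hv) with h | h
        · exact Or.inl ⟨hv, h⟩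
        · exact Or.inr ⟨hv, h⟩
      · rintro (h | h) <;> exact h.1
    have hdisj : Disjoint T' B := by
      rw [Finset.disjoint_left]
      intro v h1 h2
      simp only [hT', hB, Finset.mem_filter] at h1 h2
      omega
    have hT'sub : T' ⊆ T := Finset.filter_subset _ _
    have hBsub : B ⊆ T := Finset.filter_subset _ _
    have hT'lt : T'.card < n := by
      rw [← hT]
      apply Finset.card_lt_card
      refine Finset.filter_ssubset.2 ⟨x0, hx0, by simp⟩
    obtain ⟨J, hJ1, hJ2, hJ3⟩ := ih T'.card hT'lt T' rfl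
      (fun i X hX hXi => hgood i X (hX.trans hT'sub) hXi)
    set forb : ℕ → Finset V := fun c => univ.filter (fun v => ∃ u ∈ J c, G.Adj v u) with hforb
    obtain ⟨K, hK1, hK2, hK3⟩ := some_colour G hρ h0 h1 B
      (fun X hX => hgood (j x0) X (hX.trans hBsub) (fun x hx => (Finset.mem_filter.1 (hX hx)).2))
      forb m
    have hhT' : ∀ v ∈ T', hh G T' j v = hh G T j v := by
      intro v hv
      unfold hh
      congr 1
      ext u
      simp only [hT', Finset.mem_filter] at hv ⊢
      constructor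
      · rintro ⟨⟨h1, _⟩, h3⟩; exact ⟨h1, h3⟩
      · rintro ⟨h1, h2⟩; exact ⟨⟨h1, h2.trans hv.2⟩, h2⟩
    have hhB : ∀ v ∈ B, hh G T j v = ∑ u ∈ T', e G v u := by
      intro v hv
      unfold hh
      congr 1
      ext u
      simp only [hT', hB, Finset.mem_filter] at hv ⊢
      rw [hv.2]
    -- the forbidden weight
    have hforbW : ∑ c ∈ Finset.range m, Wt ρ (B ∩ forb c) ≤ ∑ v ∈ B, ρ v * hh G T j v := by
      have a1 : ∀ c ∈ Finset.range m, Wt ρ (B ∩ forb c) ≤ ∑ v ∈ B, ρ v * ∑ u ∈ J c, e G v u := by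
        intro c _
        unfold Wt
        rw [← Finset.filter_mem_eq_inter, Finset.sum_filter]
        apply Finset.sum_le_sum
        intro v _
        split_ifs with hv
        · simp only [hforb, Finset.mem_filter, Finset.mem_univ, true_and] at hv
          obtain ⟨u, hu, huv⟩ := hv
          have : 1 ≤ ∑ u ∈ J c, e G v u := by
            calc (1:ℝ) = e G v u := by simp [e, huv]
              _ ≤ _ := Finset.single_le_sum (f := fun u => e G v u)
                (fun w _ => e_nonneg G v w) hu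
          nlinarith [hρ v]
        · exact mul_nonneg (hρ v) (Finset.sum_nonneg fun w _ => e_nonneg G v w)
      refine (Finset.sum_le_sum a1).trans ?_
      rw [Finset.sum_comm]
      apply Finset.sum_le_sum
      intro v hv
      rw [← Finset.mul_sum, hhB v hv]
      apply mul_le_mul_of_nonneg_left _ (hρ v)
      rw [← Finset.sum_biUnion]
      · apply Finset.sum_le_sum_of_subset_of_nonneg
        · intro u hu
          rw [Finset.mem_biUnion] at hu
          obtain ⟨c, hc, huc⟩ := hu
          exact (hJ1 c (Finset.mem_range.1 hc)).1 huc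
        · intro u _ _
          exact e_nonneg G v u
      · intro c hc c' hc' hne'
        exact hJ2 c (by simpa using hc) c' (by simpa using hc') hne'
    refine ⟨fun c => J c ∪ K c, ?_, ?_, ?_⟩
    · intro c hc
      obtain ⟨a1, a2⟩ := hJ1 c hc
      obtain ⟨b1, b2, b3⟩ := hK1 c hc
      refine ⟨Finset.union_subset (a1.trans hT'sub) (b1.trans hBsub), ?_⟩
      have hcross : ∀ x ∈ J c, ∀ y ∈ K c, ¬ G.Adj y x := by
        intro x hx y hy hyx
        apply Finset.disjoint_left.1 b2 hy
        simp only [hforb, Finset.mem_filter, Finset.mem_univ, true_and]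
        exact ⟨x, hx, hyx⟩
      intro x hx y hy
      rcases Finset.mem_union.1 hx with hx | hx <;> rcases Finset.mem_union.1 hy with hy | hy
      · exact a2 x hx y hy
      · exact fun h => hcross x hx y hy h.symm
      · exact hcross y hy x hx
      · exact b3 x hx y hy
    · intro c hc c' hc' hne'
      rw [Finset.disjoint_union_left, Finset.disjoint_union_right, Finset.disjoint_union_right]
      refine ⟨⟨hJ2 c hc c' hc' hne', ?_⟩, ?_, hK2 c hc c' hc' hne'⟩
      · exact Finset.disjoint_of_subset_left (hJ1 c hc).1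
          (Finset.disjoint_of_subset_right (hK1 c' hc').1 hdisj)
      · exact (Finset.disjoint_of_subset_left (hJ1 c' hc').1
          (Finset.disjoint_of_subset_right (hK1 c hc).1 hdisj)).symm
    · have e1 : ∑ c ∈ Finset.range m, Wt ρ (J c ∪ K c) =
          ∑ c ∈ Finset.range m, Wt ρ (J c) + ∑ c ∈ Finset.range m, Wt ρ (K c) := by
        rw [← Finset.sum_add_distrib]
        apply Finset.sum_congr rfl
        intro c hc
        apply Wt_union
        exact Finset.disjoint_of_subset_left (hJ1 c (Finset.mem_range.1 hc)).1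
          (Finset.disjoint_of_subset_right (hK1 c (Finset.mem_range.1 hc)).1 hdisj)
      have e2 : Wt ρ T = Wt ρ T' + Wt ρ B := by
        conv_lhs => rw [hsplit]
        exact Wt_union hdisj
      have e3 : ∑ v ∈ T, ρ v * hh G T j v =
          ∑ v ∈ T', ρ v * hh G T' j v + ∑ v ∈ B, ρ v * hh G T j v := by
        have : ∑ v ∈ T', ρ v * hh G T' j v = ∑ v ∈ T', ρ v * hh G T j v :=
          Finset.sum_congr rfl fun v hv => by rw [hhT' v hv]
        rw [this, ← Finset.sum_union hdisj, ← hsplit]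
      rw [e1, e2, e3]
      nlinarith [mul_le_mul_of_nonneg_left hforbW h0]

/-- arbitrary weights -/
theorem general_weights (G : SimpleGraph V) {ρ : V → ℝ} (hρ : ∀ x, 0 ≤ ρ x) {γ Δ K : ℝ}
    (h0 : 0 ≤ γ) (h1 : γ ≤ 1) (hK : 1 < K) (hΔ : ∀ x, dg G univ x ≤ Δ) (L : ℕ) (hL : 0 < L)
    (hgood : ∀ (X : Finset V) (r : ℝ), 0 < r → (∀ x ∈ X, r ≤ ρ x ∧ ρ x ≤ r * K ^ L) →
      ∃ I ⊆ X, Ind G I ∧ γ * Wt ρ X ≤ Wt ρ I) (m : ℕ) (hm : 0 < m) :
    ∃ I, Ind G I ∧ ((1 - (1 - γ) ^ m) * (1 - 1 / (L : ℝ)) - γ * Δ / K) * Wt ρ univ ≤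
      m * Wt ρ I := by
  have hlogK : 0 < Real.log K := Real.log_pos hK
  have hK0 : 0 < K := by linarith
  have hLR : (0:ℝ) < L := by exact_mod_cast hL
  set P : Finset V := univ.filter (fun v => 0 < ρ v) with hP
  have hWP : Wt ρ P = Wt ρ univ := by
    unfold Wt
    rw [hP, Finset.sum_filter]
    apply Finset.sum_congr rfl
    intro v _
    split_ifs with h
    · rfl
    · have := hρ v
      linarith
  -- levels
  set l : V → ℤ := fun v => ⌊- Real.log (ρ v) / Real.log K⌋ with hl
  have hl1 : ∀ v, (l v : ℝ) * Real.log K ≤ - Real.log (ρ v) := by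
    intro v
    have := Int.floor_le (- Real.log (ρ v) / Real.log K)
    rwa [le_div_iff₀ hlogK] at this
  have hl2 : ∀ v, - Real.log (ρ v) < ((l v : ℝ) + 1) * Real.log K := by
    intro v
    have := Int.lt_floor_add_one (- Real.log (ρ v) / Real.log K)
    rwa [div_lt_iff₀ hlogK] at this
  have hLZ : (0:ℤ) < (L:ℤ) := by exact_mod_cast hL
  -- a light residue class
  obtain ⟨a, ha, hlight⟩ : ∃ a ∈ Finset.range L,
      Wt ρ (P.filter (fun v => l v % (L:ℤ) = (a:ℤ))) ≤ Wt ρ P / L := by
    by_contra hcon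
    push Not at hcon
    have h2 : ∑ a ∈ Finset.range L, Wt ρ P / L < ∑ a ∈ Finset.range L,
        Wt ρ (P.filter (fun v => l v % (L:ℤ) = (a:ℤ))) :=
      Finset.sum_lt_sum_of_nonempty ⟨0, Finset.mem_range.2 hL⟩ hcon
    rw [Finset.sum_const, Finset.card_range, nsmul_eq_mul] at h2
    have h3 : ∑ a ∈ Finset.range L, Wt ρ (P.filter (fun v => l v % (L:ℤ) = (a:ℤ))) = Wt ρ P := by
      unfold Wt
      have : ∀ v ∈ P, (fun v => (l v % (L:ℤ)).toNat) v ∈ Finset.range L := by
        intro v _
        rw [Finset.mem_range]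
        have h4 := Int.emod_lt_of_pos (l v) hLZ
        have h5 := Int.emod_nonneg (l v) hLZ.ne'
        show (l v % (L:ℤ)).toNat < L
        omega
      rw [← Finset.sum_fiberwise_of_maps_to this]
      apply Finset.sum_congr rfl
      intro a _
      congr 1
      ext v
      simp only [Finset.mem_filter]
      have h5 := Int.emod_nonneg (l v) hLZ.ne'
      constructor
      · rintro ⟨h6, h7⟩; exact ⟨h6, by omega⟩
      · rintro ⟨h6, h7⟩; exact ⟨h6, by omega⟩
    rw [h3] at h2
    have h4 : (L:ℝ) * (Wt ρ P / L) = Wt ρ P := by field_simp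
    linarith
  rw [Finset.mem_range] at ha
  set T : Finset V := P.filter (fun v => ¬ l v % (L:ℤ) = (a:ℤ)) with hT
  have hTW : (1 - 1 / (L:ℝ)) * Wt ρ univ ≤ Wt ρ T := by
    have : Wt ρ (P.filter (fun v => l v % (L:ℤ) = (a:ℤ))) + Wt ρ T = Wt ρ P := by
      unfold Wt
      rw [hT]
      exact Finset.sum_filter_add_sum_filter_not P _ _
    rw [← hWP]
    have h4 : (1 - 1 / (L:ℝ)) * Wt ρ P = Wt ρ P - Wt ρ P / L := by ring
    linarith
  set j : V → ℤ := fun v => (l v - a) / (L:ℤ) with hj
  have hTpos : ∀ v ∈ T, 0 < ρ v := by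
    intro v hv
    have := Finset.filter_subset _ _ hv
    exact (Finset.mem_filter.1 this).2
  have hj1 : ∀ v, (L:ℤ) * j v ≤ l v - a := fun v => Int.mul_ediv_self_le hLZ.ne'
  have hj2 : ∀ v, l v - a < (L:ℤ) * (j v + 1) := by
    intro v
    have := Int.lt_mul_ediv_self_add (x := l v - a) hLZ
    have h2 : (L:ℤ) * (j v + 1) = (L:ℤ) * ((l v - a) / (L:ℤ)) + (L:ℤ) := by
      simp only [hj]; ring
    omega
  have hj3 : ∀ v ∈ T, (L:ℤ) * j v < l v - a := by
    intro v hv
    refine lt_of_le_of_ne (hj1 v) ?_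
    intro heq
    rw [hT, Finset.mem_filter] at hv
    apply hv.2
    have h2 : l v = a + (L:ℤ) * j v := by omega
    rw [h2, Int.add_mul_emod_self_left]
    exact Int.emod_eq_of_lt (by omega) (by exact_mod_cast ha)
  -- blocks have bounded range
  have hblock : ∀ i : ℤ, ∀ X ⊆ T, (∀ x ∈ X, j x = i) →
      ∃ I ⊆ X, Ind G I ∧ γ * Wt ρ X ≤ Wt ρ I := by
    intro i X hX hXi
    apply hgood X (Real.exp (-((a:ℝ) + (L:ℝ) * ((i:ℝ) + 1)) * Real.log K)) (Real.exp_pos _)
    intro x hx
    have hpos := hTpos x (hX hx)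
    have a1 := hj1 x
    have a2 := hj2 x
    rw [hXi x hx] at a1 a2
    have b1 : (L:ℝ) * (i:ℝ) ≤ (l x : ℝ) - a := by exact_mod_cast a1
    have b2 : (l x : ℝ) - a + 1 ≤ (L:ℝ) * ((i:ℝ) + 1) := by
      have : l x - a + 1 ≤ (L:ℤ) * (i + 1) := by omega
      exact_mod_cast this
    have c1 := hl1 x
    have c2 := hl2 x
    have hKL : K ^ L = Real.exp ((L:ℝ) * Real.log K) := by
      rw [← Real.log_pow, Real.exp_log (by positivity)]
    constructor
    · rw [← Real.exp_log hpos]
      apply Real.exp_le_exp.2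
      nlinarith
    · rw [hKL, ← Real.exp_add]
      rw [← Real.exp_log hpos]
      apply Real.exp_le_exp.2
      nlinarith
  obtain ⟨J, hJ1, _, hJ3⟩ := block_colour G hρ h0 h1 m j T.card T rfl hblock
  -- few neighbours in earlier blocks
  have hcross : ∑ v ∈ T, ρ v * hh G T j v ≤ Δ / K * Wt ρ univ := by
    have s1 : ∀ v ∈ T, ρ v * hh G T j v ≤ ∑ u ∈ T, (ρ u / K) * e G v u := by
      intro v hv
      unfold hh
      rw [Finset.mul_sum, Finset.sum_filter]
      apply Finset.sum_le_sum
      intro u hu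
      split_ifs with hlt
      · apply mul_le_mul_of_nonneg_right _ (e_nonneg G v u)
        rw [le_div_iff₀ hK0]
        have a1 := hj2 u
        have a2 := hj3 v hv
        have a3 : (L:ℤ) * (j u + 1) ≤ (L:ℤ) * j v := by
          apply mul_le_mul_of_nonneg_left _ hLZ.le
          omega
        have a4 : l u + 2 ≤ l v := by omega
        have a5 : (l u : ℝ) + 2 ≤ l v := by exact_mod_cast a4
        have c1 := hl1 v
        have c2 := hl2 u
        have hv0 := hTpos v hv
        have hu0 := hTpos u hu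
        have : Real.log (ρ v * K) ≤ Real.log (ρ u) := by
          rw [Real.log_mul hv0.ne' hK0.ne']
          nlinarith
        exact (Real.log_le_log_iff (by positivity) hu0).1 this
      · exact mul_nonneg (div_nonneg (hρ u) hK0.le) (e_nonneg G v u)
    refine (Finset.sum_le_sum s1).trans ?_
    rw [Finset.sum_comm]
    have s2 : ∀ u ∈ T, ∑ v ∈ T, (ρ u / K) * e G v u ≤ Δ / K * ρ u := by
      intro u _
      rw [← Finset.mul_sum]
      have h2 : ∑ v ∈ T, e G v u ≤ Δ := by
        calc ∑ v ∈ T, e G v u ≤ ∑ v, e G v u :=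
              Finset.sum_le_sum_of_subset_of_nonneg (Finset.subset_univ _)
                fun v _ _ => e_nonneg G v u
          _ = dg G univ u := Finset.sum_congr rfl fun v _ => e_symm G v u
          _ ≤ Δ := hΔ u
      have h3 : 0 ≤ ρ u / K := div_nonneg (hρ u) hK0.le
      calc ρ u / K * ∑ v ∈ T, e G v u ≤ ρ u / K * Δ := mul_le_mul_of_nonneg_left h2 h3
        _ = _ := by ring
    refine (Finset.sum_le_sum s2).trans ?_
    rw [← Finset.mul_sum]
    rcases isEmpty_or_nonempty V with hV | ⟨⟨x⟩⟩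
    · have : T = ∅ := Finset.eq_empty_of_isEmpty T
      rw [this]; simp [Wt]
    · have hΔ0 : 0 ≤ Δ := le_trans (Finset.sum_nonneg fun v _ => e_nonneg G x v) (hΔ x)
      exact mul_le_mul_of_nonneg_left (Wt_mono hρ (Finset.subset_univ _)) (by positivity)
  -- the best colour
  have hpow : 0 ≤ 1 - (1 - γ) ^ m := by
    have := pow_le_one₀ (n := m) (by linarith : 0 ≤ 1 - γ) (by linarith)
    linarith
  have hsum : ((1 - (1 - γ) ^ m) * (1 - 1 / (L : ℝ)) - γ * Δ / K) * Wt ρ univ ≤
      ∑ c ∈ Finset.range m, Wt ρ (J c) := by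
    refine le_trans ?_ hJ3
    have t1 := mul_le_mul_of_nonneg_left hTW hpow
    have t2 := mul_le_mul_of_nonneg_left hcross h0
    have t3 : γ * (Δ / K * Wt ρ univ) = γ * Δ / K * Wt ρ univ := by ring
    nlinarith
  obtain ⟨c, hc, hc2⟩ : ∃ c ∈ Finset.range m,
      ((1 - (1 - γ) ^ m) * (1 - 1 / (L : ℝ)) - γ * Δ / K) * Wt ρ univ ≤ m * Wt ρ (J c) := by
    by_contra hcon
    push Not at hcon
    have h2 : ∑ c ∈ Finset.range m, (m:ℝ) * Wt ρ (J c) < ∑ c ∈ Finset.range m,
        ((1 - (1 - γ) ^ m) * (1 - 1 / (L : ℝ)) - γ * Δ / K) * Wt ρ univ :=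
      Finset.sum_lt_sum_of_nonempty ⟨0, Finset.mem_range.2 hm⟩ hcon
    rw [Finset.sum_const, Finset.card_range, nsmul_eq_mul, ← Finset.mul_sum] at h2
    have hmR : (0:ℝ) < m := by exact_mod_cast hm
    have := lt_of_mul_lt_mul_left h2 hmR.le
    linarith
  exact ⟨J c, (hJ1 c (Finset.mem_range.1 hc)).2, hc2⟩

end

end Pool.Agent.Q179.CF
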