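import Mathlib
import Pool.Agent.Q179.CF.Induct

set_option autoImplicit false

/-!
# Graphs without `K_{t,t,t}` have few triangles: weighted version
-/

namespace Pool.Agent.Q179.CF

open Finset Function
open scoped Classical

set_option linter.unusedSectionVars false

variable {V : Type} [Fintype V]

theorem e_le_one (G : SimpleGraph V) (x y : V) : e G x y ≤ 1 := by
  unfold e
  split_ifs <;> norm_num

theorem e_sq (G : SimpleGraph V) (x y : V) : e G x y * e G x y = e G x y := by
  unfold e
  split_ifs <;> norm_num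

/-- product of weights -/
noncomputable def pw {s : ℕ} (v : V → ℝ) (b : Fin s → V) : ℝ := ∏ i, v (b i)

theorem pw_nonneg {s : ℕ} {v : V → ℝ} (hv : ∀ x, 0 ≤ v x) (b : Fin s → V) : 0 ≤ pw v b :=
  Finset.prod_nonneg fun i _ => hv (b i)

theorem sum_pw (s : ℕ) (v : V → ℝ) : ∑ b : Fin s → V, pw v b = (∑ x, v x) ^ s := by
  unfold pw
  rw [Fintype.sum_pow]

/-- adjacency of two tuples -/
noncomputable def E2 (G : SimpleGraph V) {s s' : ℕ} (b : Fin s → V) (c : Fin s' → V) : ℝ :=
  ∏ j, ∏ i, e G (b i) (c j)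

theorem E2_nonneg (G : SimpleGraph V) {s s' : ℕ} (b : Fin s → V) (c : Fin s' → V) :
    0 ≤ E2 G b c := Finset.prod_nonneg fun j _ => Finset.prod_nonneg fun i _ => e_nonneg G _ _

/-- weighted Jensen inequality -/
theorem jensen {ι : Type} (T : Finset ι) (w f : ι → ℝ) (hw : ∀ i ∈ T, 0 ≤ w i)
    (hf : ∀ i ∈ T, 0 ≤ f i) (n : ℕ) :
    (∑ i ∈ T, w i * f i) ^ (n + 1) ≤ (∑ i ∈ T, w i) ^ n * ∑ i ∈ T, w i * f i ^ (n + 1) := by
  have hW : 0 ≤ ∑ i ∈ T, w i := Finset.sum_nonneg hw
  rcases hW.eq_or_lt with h | h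
  · have h0 : ∀ i ∈ T, w i = 0 := (Finset.sum_eq_zero_iff_of_nonneg hw).1 h.symm
    have h1 : ∑ i ∈ T, w i * f i = 0 := Finset.sum_eq_zero fun i hi => by rw [h0 i hi, zero_mul]
    rw [h1, zero_pow (Nat.succ_ne_zero n)]
    exact mul_nonneg (pow_nonneg hW _)
      (Finset.sum_nonneg fun i hi => mul_nonneg (hw i hi) (pow_nonneg (hf i hi) _))
  · set W := ∑ i ∈ T, w i with hWdef
    have h1 := Real.pow_arith_mean_le_arith_mean_pow T (fun i => w i / W) f
      (fun i hi => div_nonneg (hw i hi) hW) (by rw [← Finset.sum_div]; exact div_self h.ne')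
      hf (n + 1)
    have e1 : ∑ i ∈ T, w i / W * f i = (∑ i ∈ T, w i * f i) / W := by
      rw [Finset.sum_div]
      exact Finset.sum_congr rfl fun i _ => by ring
    have e2 : ∑ i ∈ T, w i / W * f i ^ (n + 1) = (∑ i ∈ T, w i * f i ^ (n + 1)) / W := by
      rw [Finset.sum_div]
      exact Finset.sum_congr rfl fun i _ => by ring
    rw [e1, e2, div_pow, div_le_div_iff₀ (by positivity) h] at h1
    have h2 : W ^ (n + 1) = W * W ^ n := by ring
    rw [h2] at h1
    have h3 : W * (∑ i ∈ T, w i * f i) ^ (n + 1) ≤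
        W * (W ^ n * ∑ i ∈ T, w i * f i ^ (n + 1)) := by nlinarith
    exact le_of_mul_le_mul_left h3 h

/-- weighted number of edges -/
noncomputable def ew (G : SimpleGraph V) (v : V → ℝ) : ℝ := ∑ c, v c * ∑ y, v y * e G y c

theorem lower2 (G : SimpleGraph V) (v : V → ℝ) (hv : ∀ x, 0 ≤ v x) (s : ℕ) :
    ew G v ^ ((s + 1) * (s + 1)) ≤ (∑ x, v x) ^ (2 * (s * (s + 1))) *
      ∑ b : Fin (s + 1) → V, ∑ c : Fin (s + 1) → V, pw v b * pw v c * E2 G b c := by
  set M : ℝ := ∑ x, v x with hM
  have hM0 : 0 ≤ M := Finset.sum_nonneg fun x _ => hv x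
  -- common neighbours of `b`
  set C : (Fin (s + 1) → V) → ℝ := fun b => ∑ c, v c * ∏ i, e G (b i) c with hC
  have hC0 : ∀ b, 0 ≤ C b := fun b => Finset.sum_nonneg fun c _ =>
    mul_nonneg (hv c) (Finset.prod_nonneg fun i _ => e_nonneg G _ _)
  have h1 : ∑ c, v c * (∑ y, v y * e G y c) ^ (s + 1) =
      ∑ b : Fin (s + 1) → V, pw v b * C b := by
    have e1 : ∀ c, v c * (∑ y, v y * e G y c) ^ (s + 1) =
        ∑ b : Fin (s + 1) → V, pw v b * (v c * ∏ i, e G (b i) c) := by
      intro c
      rw [Fintype.sum_pow, Finset.mul_sum]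
      apply Finset.sum_congr rfl
      intro b _
      unfold pw
      rw [Finset.prod_mul_distrib]
      ring
    rw [Finset.sum_congr rfl fun c _ => e1 c, Finset.sum_comm]
    apply Finset.sum_congr rfl
    intro b _
    rw [hC, Finset.mul_sum]
  have h2 : ∑ b : Fin (s + 1) → V, ∑ c : Fin (s + 1) → V, pw v b * pw v c * E2 G b c =
      ∑ b : Fin (s + 1) → V, pw v b * C b ^ (s + 1) := by
    apply Finset.sum_congr rfl
    intro b _
    simp only [hC]
    rw [Fintype.sum_pow, Finset.mul_sum]
    apply Finset.sum_congr rfl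
    intro c _
    unfold E2
    rw [Finset.prod_mul_distrib]
    unfold pw
    ring
  have h3 : ew G v ^ (s + 1) ≤ M ^ s * ∑ b : Fin (s + 1) → V, pw v b * C b := by
    rw [← h1]
    exact jensen univ v _ (fun i _ => hv i)
      (fun i _ => Finset.sum_nonneg fun y _ => mul_nonneg (hv y) (e_nonneg G _ _)) s
  have h4 : (∑ b : Fin (s + 1) → V, pw v b * C b) ^ (s + 1) ≤
      (∑ b : Fin (s + 1) → V, pw v b) ^ s * ∑ b : Fin (s + 1) → V, pw v b * C b ^ (s + 1) :=
    jensen univ _ _ (fun b _ => pw_nonneg hv b) (fun b _ => hC0 b) s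
  rw [sum_pw] at h4
  have h0 : 0 ≤ ew G v := Finset.sum_nonneg fun c _ => mul_nonneg (hv c)
    (Finset.sum_nonneg fun y _ => mul_nonneg (hv y) (e_nonneg G _ _))
  calc ew G v ^ ((s + 1) * (s + 1)) = (ew G v ^ (s + 1)) ^ (s + 1) := by rw [pow_mul]
    _ ≤ (M ^ s * ∑ b : Fin (s + 1) → V, pw v b * C b) ^ (s + 1) :=
        pow_le_pow_left₀ (pow_nonneg h0 _) h3 _
    _ = (M ^ s) ^ (s + 1) * (∑ b : Fin (s + 1) → V, pw v b * C b) ^ (s + 1) := by
        rw [mul_pow]
    _ ≤ (M ^ s) ^ (s + 1) * ((M ^ (s + 1)) ^ s *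
          ∑ b : Fin (s + 1) → V, pw v b * C b ^ (s + 1)) :=
        mul_le_mul_of_nonneg_left h4 (by positivity)
    _ = _ := by
        rw [h2]
        ring

theorem pair_sum {s : ℕ} {v : V → ℝ} (hv : ∀ x, 0 ≤ v x) {B : ℝ} (hB : ∀ x, v x ≤ B)
    (i j : Fin (s + 1)) (hij : i ≠ j) :
    ∑ b : Fin (s + 1) → V, (if b i = b j then pw v b else 0) ≤ B * (∑ x, v x) ^ s := by
  obtain ⟨i', rfl⟩ := Fin.exists_succAbove_eq hij
  have h1 : ∑ b : Fin (s + 1) → V, (if b (j.succAbove i') = b j then pw v b else 0) =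
      ∑ p : V × (Fin s → V), (if p.2 i' = p.1 then v p.1 * pw v p.2 else 0) := by
    rw [← (Fin.insertNthEquiv (fun _ : Fin (s + 1) => V) j).sum_comp]
    apply Finset.sum_congr rfl
    rintro ⟨y, b'⟩ _
    simp only [Fin.insertNthEquiv, Equiv.coe_fn_mk, Fin.insertNth_apply_succAbove,
      Fin.insertNth_apply_same]
    unfold pw
    rw [Fin.prod_univ_succAbove _ j]
    simp only [Fin.insertNth_apply_succAbove, Fin.insertNth_apply_same]
  rw [h1, Fintype.sum_prod_type, Finset.sum_comm]
  have h2 : ∀ b' : Fin s → V, ∑ y, (if b' i' = y then v y * pw v b' else 0) ≤ B * pw v b' := by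
    intro b'
    rw [Finset.sum_ite_eq univ (b' i'), if_pos (Finset.mem_univ _)]
    exact mul_le_mul_of_nonneg_right (hB _) (pw_nonneg hv b')
  refine (Finset.sum_le_sum fun b' _ => h2 b').trans (le_of_eq ?_)
  rw [← Finset.mul_sum, sum_pw]

theorem noninj_sum {s : ℕ} {v : V → ℝ} (hv : ∀ x, 0 ≤ v x) {B : ℝ} (hB : ∀ x, v x ≤ B) (hB0 : 0 ≤ B) :
    ∑ b : Fin (s + 1) → V, (if Injective b then 0 else pw v b) ≤
      ((s:ℝ) + 1) ^ 2 * (B * (∑ x, v x) ^ s) := by
  have hM0 : 0 ≤ ∑ x, v x := Finset.sum_nonneg fun x _ => hv x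
  have h1 : ∀ b : Fin (s + 1) → V, (if Injective b then 0 else pw v b) ≤
      ∑ p : Fin (s + 1) × Fin (s + 1), (if p.1 ≠ p.2 then (if b p.1 = b p.2 then pw v b else 0)
        else 0) := by
    intro b
    have hnn : ∀ p : Fin (s + 1) × Fin (s + 1), 0 ≤ (if p.1 ≠ p.2 then
        (if b p.1 = b p.2 then pw v b else 0) else 0) := by
      intro p
      split_ifs
      · exact pw_nonneg hv b
      · exact le_rfl
      · exact le_rfl
    split_ifs with hb
    · exact Finset.sum_nonneg fun p _ => hnn p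
    · unfold Injective at hb
      push Not at hb
      obtain ⟨i, j, hij, hne⟩ := hb
      refine le_trans ?_ (Finset.single_le_sum (fun p _ => hnn p) (Finset.mem_univ (i, j)))
      simp [hne, hij]
  refine (Finset.sum_le_sum fun b _ => h1 b).trans ?_
  rw [Finset.sum_comm]
  have h2 : ∀ p : Fin (s + 1) × Fin (s + 1), ∑ b : Fin (s + 1) → V,
      (if p.1 ≠ p.2 then (if b p.1 = b p.2 then pw v b else 0) else 0) ≤
        B * (∑ x, v x) ^ s := by
    intro p
    by_cases hp : p.1 ≠ p.2
    · simp only [if_pos hp]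
      exact pair_sum hv hB p.1 p.2 hp
    · simp only [if_neg hp, Finset.sum_const_zero]
      positivity
  refine (Finset.sum_le_sum fun p _ => h2 p).trans (le_of_eq ?_)
  rw [Finset.sum_const, Finset.card_univ, Fintype.card_prod, Fintype.card_fin, nsmul_eq_mul]
  push_cast
  ring

/-- weighted degree -/
noncomputable def Mw (G : SimpleGraph V) (w : V → ℝ) (x : V) : ℝ := ∑ y, e G x y * w y

/-- weighted number of homomorphisms of `K_{s+1,s+1}` -/
theorem hom_sum (G : SimpleGraph V) (s : ℕ) {w : V → ℝ} (hw : ∀ x, 0 ≤ w x) {M₁ : ℝ} (hM0 : 0 ≤ M₁)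
    (hM : ∀ x, w x ≠ 0 → Mw G w x ≤ M₁) :
    ∑ b : Fin (s + 1) → V, ∑ c : Fin (s + 1) → V, pw w b * pw w c * E2 G b c ≤
      (∑ x, w x) * M₁ ^ (2 * s + 1) := by
  have hMn : ∀ x, 0 ≤ Mw G w x := fun x => Finset.sum_nonneg fun y _ =>
    mul_nonneg (e_nonneg G x y) (hw y)
  have hMM : ∀ x, w x * Mw G w x ≤ w x * M₁ := by
    intro x
    by_cases h : w x = 0
    · rw [h]; simp
    · exact mul_le_mul_of_nonneg_left (hM x h) (hw x)
  -- drop most of the adjacency conditions
  have h1 : ∀ (b c : Fin (s + 1) → V), E2 G b c ≤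
      (∏ j, e G (b 0) (c j)) * ∏ i : Fin s, e G (b i.succ) (c 0) := by
    intro b c
    unfold E2
    have a1 : ∏ j, ∏ i, e G (b i) (c j) = (∏ j, e G (b 0) (c j)) *
        ∏ j, ∏ i : Fin s, e G (b i.succ) (c j) := by
      rw [← Finset.prod_mul_distrib]
      apply Finset.prod_congr rfl
      intro j _
      rw [Fin.prod_univ_succ]
    rw [a1]
    apply mul_le_mul_of_nonneg_left _ (Finset.prod_nonneg fun j _ => e_nonneg G _ _)
    rw [Fin.prod_univ_succ]
    have a2 : ∏ j : Fin s, ∏ i : Fin s, e G (b i.succ) (c j.succ) ≤ 1 :=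
      Finset.prod_le_one (fun j _ => Finset.prod_nonneg fun i _ => e_nonneg G _ _)
        (fun j _ => Finset.prod_le_one (fun i _ => e_nonneg G _ _) (fun i _ => e_le_one G _ _))
    exact mul_le_of_le_one_right (Finset.prod_nonneg fun i _ => e_nonneg G _ _) a2
  calc ∑ b : Fin (s + 1) → V, ∑ c : Fin (s + 1) → V, pw w b * pw w c * E2 G b c
      ≤ ∑ b : Fin (s + 1) → V, ∑ c : Fin (s + 1) → V, pw w b * pw w c *
          ((∏ j, e G (b 0) (c j)) * ∏ i : Fin s, e G (b i.succ) (c 0)) :=
        Finset.sum_le_sum fun b _ => Finset.sum_le_sum fun c _ =>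
          mul_le_mul_of_nonneg_left (h1 b c) (mul_nonneg (pw_nonneg hw b) (pw_nonneg hw c))
    _ = ∑ b₀ : V, ∑ b' : Fin s → V, ∑ c : Fin (s + 1) → V, (w b₀ * pw w b') * pw w c *
          ((∏ j, e G b₀ (c j)) * ∏ i : Fin s, e G (b' i) (c 0)) := by
        rw [← (Fin.consEquiv (fun _ : Fin (s + 1) => V)).sum_comp, Fintype.sum_prod_type]
        apply Finset.sum_congr rfl
        intro b₀ _
        apply Finset.sum_congr rfl
        intro b' _
        apply Finset.sum_congr rfl
        intro c _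
        simp only [Fin.consEquiv, Equiv.coe_fn_mk, Fin.cons_zero, Fin.cons_succ]
        unfold pw
        rw [Fin.prod_univ_succ (fun i => w ((Fin.cons b₀ b' : Fin (s + 1) → V) i))]
        simp only [Fin.cons_zero, Fin.cons_succ]
    _ = ∑ b₀ : V, ∑ c : Fin (s + 1) → V, w b₀ * (pw w c * (∏ j, e G b₀ (c j))) *
          (Mw G w (c 0)) ^ s := by
        apply Finset.sum_congr rfl
        intro b₀ _
        rw [Finset.sum_comm]
        apply Finset.sum_congr rfl
        intro c _
        have a1 : (Mw G w (c 0)) ^ s = ∑ b' : Fin s → V, pw w b' * ∏ i : Fin s, e G (b' i) (c 0) := by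
          unfold Mw
          rw [Fintype.sum_pow]
          apply Finset.sum_congr rfl
          intro b' _
          rw [Finset.prod_mul_distrib]
          unfold pw
          rw [mul_comm]
          congr 1
          exact Finset.prod_congr rfl fun i _ => e_symm G _ _
        rw [a1, Finset.mul_sum]
        apply Finset.sum_congr rfl
        intro b' _
        ring
    _ ≤ ∑ b₀ : V, ∑ c : Fin (s + 1) → V, w b₀ * (pw w c * (∏ j, e G b₀ (c j))) * M₁ ^ s := by
        apply Finset.sum_le_sum
        intro b₀ _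
        apply Finset.sum_le_sum
        intro c _
        by_cases hc : w (c 0) = 0
        · have : pw w c = 0 := by
            unfold pw
            exact Finset.prod_eq_zero (Finset.mem_univ 0) hc
          rw [this]
          simp
        · apply mul_le_mul_of_nonneg_left _ (mul_nonneg (hw b₀) (mul_nonneg (pw_nonneg hw c)
            (Finset.prod_nonneg fun j _ => e_nonneg G _ _)))
          exact pow_le_pow_left₀ (hMn _) (hM _ hc) s
    _ = ∑ b₀ : V, w b₀ * (Mw G w b₀) ^ (s + 1) * M₁ ^ s := by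
        apply Finset.sum_congr rfl
        intro b₀ _
        have a1 : (Mw G w b₀) ^ (s + 1) = ∑ c : Fin (s + 1) → V, pw w c * ∏ j, e G b₀ (c j) := by
          unfold Mw
          rw [Fintype.sum_pow]
          apply Finset.sum_congr rfl
          intro c _
          rw [Finset.prod_mul_distrib]
          unfold pw
          rw [mul_comm]
        rw [a1, Finset.mul_sum, Finset.sum_mul]
    _ ≤ ∑ b₀ : V, w b₀ * M₁ ^ (s + 1) * M₁ ^ s := by
        apply Finset.sum_le_sum
        intro b₀ _
        apply mul_le_mul_of_nonneg_right _ (by positivity)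
        by_cases h : w b₀ = 0
        · rw [h]; simp
        · exact mul_le_mul_of_nonneg_left (pow_le_pow_left₀ (hMn _) (hM _ h) _) (hw b₀)
    _ = _ := by
        rw [Finset.sum_mul]
        apply Finset.sum_congr rfl
        intro b₀ _
        ring

/-- the weighted number of edges in the neighbourhood of `x` -/
noncomputable def tw (G : SimpleGraph V) (w : V → ℝ) (x : V) : ℝ :=
  ew G (fun y => e G x y * w y)

theorem tw_nonneg (G : SimpleGraph V) {w : V → ℝ} (hw : ∀ x, 0 ≤ w x) (x : V) : 0 ≤ tw G w x := by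
  unfold tw ew
  exact Finset.sum_nonneg fun c _ => mul_nonneg (mul_nonneg (e_nonneg G _ _) (hw c))
    (Finset.sum_nonneg fun y _ => mul_nonneg (mul_nonneg (e_nonneg G _ _) (hw y))
      (e_nonneg G _ _))

theorem tw_le (G : SimpleGraph V) {w : V → ℝ} (hw : ∀ x, 0 ≤ w x) {M₁ : ℝ}
    (hM : ∀ x, w x ≠ 0 → Mw G w x ≤ M₁) (x : V) : tw G w x ≤ Mw G w x * M₁ := by
  unfold tw ew
  have : Mw G w x * M₁ = ∑ c, (e G x c * w c) * M₁ := by
    unfold Mw
    rw [Finset.sum_mul]
  rw [this]
  apply Finset.sum_le_sum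
  intro c _
  by_cases h : w c = 0
  · simp [h]
  · apply mul_le_mul_of_nonneg_left _ (mul_nonneg (e_nonneg G _ _) (hw c))
    refine le_trans ?_ (hM c h)
    unfold Mw
    apply Finset.sum_le_sum
    intro y _
    rw [e_symm G c y]
    have h1 := e_le_one G x y
    have h2 := e_nonneg G x y
    have h3 := e_nonneg G y c
    have h4 := mul_nonneg (hw y) h3
    nlinarith

/-- **Few triangles**, weighted version. -/
theorem few2 (G : SimpleGraph V) (s : ℕ) (hG : Free3 G (s + 1)) {w : V → ℝ}
    (hw : ∀ x, 0 ≤ w x) {B : ℝ} (hB : ∀ x, w x ≤ B) (hB0 : 0 ≤ B) {M₁ : ℝ} (hM0 : 0 ≤ M₁)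
    (hM : ∀ x, w x ≠ 0 → Mw G w x ≤ M₁) (k m : ℕ) (hk : k = (s + 1) * (s + 1))
    (hm : m + 1 = 2 * k) :
    (∑ x, w x * tw G w x) ^ k ≤ 3 * ((s:ℝ) + 1) ^ 2 * B * M₁ ^ m * (∑ x, w x) ^ k := by
  have hMn : ∀ x, 0 ≤ Mw G w x := fun x => Finset.sum_nonneg fun y _ =>
    mul_nonneg (e_nonneg G x y) (hw y)
  set W : ℝ := ∑ x, w x with hW
  have hW0 : 0 ≤ W := Finset.sum_nonneg fun x _ => hw x
  -- the weights restricted to the neighbourhood of `x`
  set u : V → V → ℝ := fun x y => e G x y * w y with hu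
  have hu0 : ∀ x y, 0 ≤ u x y := fun x y => mul_nonneg (e_nonneg G _ _) (hw y)
  have huB : ∀ x y, u x y ≤ B := by
    intro x y
    calc u x y ≤ 1 * w y := mul_le_mul_of_nonneg_right (e_le_one G _ _) (hw y)
      _ ≤ B := by rw [one_mul]; exact hB y
  have husum : ∀ x, ∑ y, u x y = Mw G w x := fun x => rfl
  set H : V → ℝ := fun x =>
    ∑ b : Fin (s + 1) → V, ∑ c : Fin (s + 1) → V, pw (u x) b * pw (u x) c * E2 G b c with hH
  have hH0 : ∀ x, 0 ≤ H x := fun x => Finset.sum_nonneg fun b _ => Finset.sum_nonneg fun c _ =>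
    mul_nonneg (mul_nonneg (pw_nonneg (hu0 x) b) (pw_nonneg (hu0 x) c)) (E2_nonneg G b c)
  -- step 1: the noninjective pairs
  have hnon : ∀ x, w x ≠ 0 →
      ∑ b : Fin (s + 1) → V, ∑ c : Fin (s + 1) → V,
        (if Injective b ∧ Injective c then 0 else pw (u x) b * pw (u x) c * E2 G b c) ≤
        2 * ((s:ℝ) + 1) ^ 2 * B * M₁ ^ (2 * s + 1) := by
    intro x hx
    have hMx := hM x hx
    have a1 : ∀ b c : Fin (s + 1) → V,
        (if Injective b ∧ Injective c then 0 else pw (u x) b * pw (u x) c * E2 G b c) ≤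
        (if Injective b then 0 else pw (u x) b) * pw (u x) c +
          pw (u x) b * (if Injective c then 0 else pw (u x) c) := by
      intro b c
      have p1 := pw_nonneg (hu0 x) b
      have p2 := pw_nonneg (hu0 x) c
      have p3 : E2 G b c ≤ 1 := Finset.prod_le_one
        (fun j _ => Finset.prod_nonneg fun i _ => e_nonneg G _ _)
        (fun j _ => Finset.prod_le_one (fun i _ => e_nonneg G _ _) (fun i _ => e_le_one G _ _))
      have p4 := E2_nonneg G b c
      have p5 : pw (u x) b * pw (u x) c * E2 G b c ≤ pw (u x) b * pw (u x) c :=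
        mul_le_of_le_one_right (mul_nonneg p1 p2) p3
      by_cases hb : Injective b <;> by_cases hc : Injective c
      · simp [hb, hc]
      · simp only [hb, hc, and_false, if_false, if_true, zero_mul, zero_add]
        exact p5
      · simp only [hb, hc, false_and, if_false, if_true, mul_zero, add_zero]
        exact p5
      · simp only [hb, hc, false_and, if_false]
        nlinarith [mul_nonneg p1 p2]
    have a2 := noninj_sum (s := s) (hu0 x) (huB x) hB0
    rw [husum] at a2
    have a3 : ∑ b : Fin (s + 1) → V, pw (u x) b = Mw G w x ^ (s + 1) := by rw [sum_pw, husum]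
    calc _ ≤ ∑ b : Fin (s + 1) → V, ∑ c : Fin (s + 1) → V,
          ((if Injective b then 0 else pw (u x) b) * pw (u x) c +
          pw (u x) b * (if Injective c then 0 else pw (u x) c)) :=
          Finset.sum_le_sum fun b _ => Finset.sum_le_sum fun c _ => a1 b c
      _ = (∑ b : Fin (s + 1) → V, (if Injective b then 0 else pw (u x) b)) * Mw G w x ^ (s + 1) +
          Mw G w x ^ (s + 1) *
            ∑ b : Fin (s + 1) → V, (if Injective b then 0 else pw (u x) b) := by
          simp only [Finset.sum_add_distrib, ← Finset.mul_sum, ← Finset.sum_mul]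
          rw [a3]
      _ ≤ (((s:ℝ) + 1) ^ 2 * (B * Mw G w x ^ s)) * Mw G w x ^ (s + 1) +
          Mw G w x ^ (s + 1) * (((s:ℝ) + 1) ^ 2 * (B * Mw G w x ^ s)) := by
          have := pow_nonneg (hMn x) (s + 1)
          nlinarith [mul_le_mul_of_nonneg_right a2 this]
      _ = 2 * ((s:ℝ) + 1) ^ 2 * B * Mw G w x ^ (2 * s + 1) := by ring
      _ ≤ _ := by
          apply mul_le_mul_of_nonneg_left _ (by positivity)
          exact pow_le_pow_left₀ (hMn x) hMx _
  -- step 2: the injective pairs
  have hinj : ∑ x, w x * ∑ b : Fin (s + 1) → V, ∑ c : Fin (s + 1) → V,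
        (if Injective b ∧ Injective c then pw (u x) b * pw (u x) c * E2 G b c else 0) ≤
        ((s:ℝ) + 1) * B * (W * M₁ ^ (2 * s + 1)) := by
    have a1 : ∀ x, w x * ∑ b : Fin (s + 1) → V, ∑ c : Fin (s + 1) → V,
        (if Injective b ∧ Injective c then pw (u x) b * pw (u x) c * E2 G b c else 0) =
        ∑ b : Fin (s + 1) → V, ∑ c : Fin (s + 1) → V, pw w b * pw w c * E2 G b c *
          (if Injective b ∧ Injective c ∧ (∀ i j, G.Adj (b i) (c j)) ∧
            (∀ i, G.Adj x (b i)) ∧ (∀ j, G.Adj x (c j)) then w x else 0) := by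
      intro x
      rw [Finset.mul_sum]
      apply Finset.sum_congr rfl
      intro b _
      rw [Finset.mul_sum]
      apply Finset.sum_congr rfl
      intro c _
      by_cases h1 : Injective b ∧ Injective c
      · by_cases h2 : (∀ i j, G.Adj (b i) (c j)) ∧ (∀ i, G.Adj x (b i)) ∧ (∀ j, G.Adj x (c j))
        · rw [if_pos h1, if_pos ⟨h1.1, h1.2, h2⟩]
          have e1 : pw (u x) b = pw w b := by
            unfold pw
            exact Finset.prod_congr rfl fun i _ => by simp [hu, e, h2.2.1 i]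
          have e2 : pw (u x) c = pw w c := by
            unfold pw
            exact Finset.prod_congr rfl fun i _ => by simp [hu, e, h2.2.2 i]
          rw [e1, e2]
          ring
        · rw [if_pos h1, if_neg (fun h => h2 h.2.2)]
          have : pw (u x) b * pw (u x) c * E2 G b c = 0 := by
            by_cases g1 : ∀ i, G.Adj x (b i)
            · by_cases g2 : ∀ j, G.Adj x (c j)
              · have g3 : ¬ ∀ i j, G.Adj (b i) (c j) := fun h => h2 ⟨h, g1, g2⟩
                push Not at g3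
                obtain ⟨i, j, hij⟩ := g3
                have : E2 G b c = 0 := by
                  unfold E2
                  apply Finset.prod_eq_zero (Finset.mem_univ j)
                  apply Finset.prod_eq_zero (Finset.mem_univ i)
                  simp [e, hij]
                rw [this, mul_zero]
              · push Not at g2
                obtain ⟨j, hj⟩ := g2
                have : pw (u x) c = 0 := by
                  unfold pw
                  apply Finset.prod_eq_zero (Finset.mem_univ j)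
                  simp [hu, e, hj]
                rw [this, mul_zero, zero_mul]
            · push Not at g1
              obtain ⟨i, hi⟩ := g1
              have : pw (u x) b = 0 := by
                unfold pw
                apply Finset.prod_eq_zero (Finset.mem_univ i)
                simp [hu, e, hi]
              rw [this, zero_mul, zero_mul]
          rw [this]
          ring
      · rw [if_neg h1, if_neg (fun h => h1 ⟨h.1, h.2.1⟩)]
        ring
    rw [Finset.sum_congr rfl fun x _ => a1 x, Finset.sum_comm]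
    have a2 : ∀ b c : Fin (s + 1) → V,
        ∑ x, (if Injective b ∧ Injective c ∧ (∀ i j, G.Adj (b i) (c j)) ∧
            (∀ i, G.Adj x (b i)) ∧ (∀ j, G.Adj x (c j)) then w x else 0) ≤ ((s:ℝ) + 1) * B := by
      intro b c
      rw [← Finset.sum_filter]
      set X := univ.filter (fun x => Injective b ∧ Injective c ∧ (∀ i j, G.Adj (b i) (c j)) ∧
            (∀ i, G.Adj x (b i)) ∧ (∀ j, G.Adj x (c j))) with hX
      have hcard : X.card ≤ s + 1 := by
        by_contra hcon
        push Not at hcon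
        have hc : Fintype.card (Fin (s + 1)) ≤ Fintype.card X := by
          rw [Fintype.card_fin, Fintype.card_coe]; exact hcon.le
        obtain ⟨g⟩ := Function.Embedding.nonempty_of_card_le hc
        have hg : ∀ i, Injective b ∧ Injective c ∧ (∀ i j, G.Adj (b i) (c j)) ∧
            (∀ j, G.Adj (g i) (b j)) ∧ (∀ j, G.Adj (g i) (c j)) := fun i =>
          (Finset.mem_filter.1 (g i).2).2
        apply hG
        exact ⟨fun i => (g i : V), b, c, fun i j h => g.injective (Subtype.ext h), (hg 0).1,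
          (hg 0).2.1, fun i j => (hg i).2.2.2.1 j, fun i j => (hg i).2.2.2.2 j, (hg 0).2.2.1⟩
      calc ∑ x ∈ X, w x ≤ ∑ x ∈ X, B := Finset.sum_le_sum fun x _ => hB x
        _ = X.card * B := by rw [Finset.sum_const, nsmul_eq_mul]
        _ ≤ ((s:ℝ) + 1) * B := by
            apply mul_le_mul_of_nonneg_right _ hB0
            exact_mod_cast hcard
    calc _ = ∑ b : Fin (s + 1) → V, ∑ c : Fin (s + 1) → V, pw w b * pw w c * E2 G b c *
          ∑ x, (if Injective b ∧ Injective c ∧ (∀ i j, G.Adj (b i) (c j)) ∧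
            (∀ i, G.Adj x (b i)) ∧ (∀ j, G.Adj x (c j)) then w x else 0) := by
          apply Finset.sum_congr rfl
          intro b _
          rw [Finset.sum_comm]
          apply Finset.sum_congr rfl
          intro c _
          rw [Finset.mul_sum]
      _ ≤ ∑ b : Fin (s + 1) → V, ∑ c : Fin (s + 1) → V, pw w b * pw w c * E2 G b c *
          (((s:ℝ) + 1) * B) := Finset.sum_le_sum fun b _ => Finset.sum_le_sum fun c _ =>
            mul_le_mul_of_nonneg_left (a2 b c)
              (mul_nonneg (mul_nonneg (pw_nonneg hw b) (pw_nonneg hw c)) (E2_nonneg G b c))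
      _ = ((s:ℝ) + 1) * B * ∑ b : Fin (s + 1) → V, ∑ c : Fin (s + 1) → V,
          pw w b * pw w c * E2 G b c := by
          rw [Finset.mul_sum]
          apply Finset.sum_congr rfl
          intro b _
          rw [Finset.mul_sum]
          apply Finset.sum_congr rfl
          intro c _
          ring
      _ ≤ _ := mul_le_mul_of_nonneg_left (hom_sum G s hw hM0 hM) (by positivity)
  -- together
  have hHsum : ∑ x, w x * H x ≤ 3 * ((s:ℝ) + 1) ^ 2 * B * (W * M₁ ^ (2 * s + 1)) := by
    have a1 : ∀ x, w x * H x ≤ w x * ∑ b : Fin (s + 1) → V, ∑ c : Fin (s + 1) → V,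
        (if Injective b ∧ Injective c then pw (u x) b * pw (u x) c * E2 G b c else 0) +
        w x * (2 * ((s:ℝ) + 1) ^ 2 * B * M₁ ^ (2 * s + 1)) := by
      intro x
      by_cases hx : w x = 0
      · rw [hx]; simp
      · rw [← mul_add]
        apply mul_le_mul_of_nonneg_left _ (hw x)
        have := hnon x hx
        have e1 : H x = ∑ b : Fin (s + 1) → V, ∑ c : Fin (s + 1) → V,
            (if Injective b ∧ Injective c then pw (u x) b * pw (u x) c * E2 G b c else 0) +
            ∑ b : Fin (s + 1) → V, ∑ c : Fin (s + 1) → V,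
            (if Injective b ∧ Injective c then 0 else pw (u x) b * pw (u x) c * E2 G b c) := by
          simp only [hH]
          rw [← Finset.sum_add_distrib]
          apply Finset.sum_congr rfl
          intro b _
          rw [← Finset.sum_add_distrib]
          apply Finset.sum_congr rfl
          intro c _
          split_ifs <;> simp
        rw [e1]
        linarith
    refine (Finset.sum_le_sum fun x _ => a1 x).trans ?_
    rw [Finset.sum_add_distrib, ← Finset.sum_mul]
    have a2 : ((s:ℝ) + 1) * B * (W * M₁ ^ (2 * s + 1)) ≤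
        ((s:ℝ) + 1) ^ 2 * B * (W * M₁ ^ (2 * s + 1)) := by
      apply mul_le_mul_of_nonneg_right _ (by positivity)
      apply mul_le_mul_of_nonneg_right _ hB0
      have : (0:ℝ) ≤ s := Nat.cast_nonneg s
      nlinarith
    have a3 : W * (2 * ((s:ℝ) + 1) ^ 2 * B * M₁ ^ (2 * s + 1)) =
        2 * (((s:ℝ) + 1) ^ 2 * B * (W * M₁ ^ (2 * s + 1))) := by ring
    rw [a3]
    linarith
  -- Jensen
  obtain ⟨k', hk'⟩ : ∃ k', k = k' + 1 := ⟨s * s + 2 * s, by rw [hk]; ring⟩
  have hJ : (∑ x, w x * tw G w x) ^ (k' + 1) ≤ W ^ k' * ∑ x, w x * tw G w x ^ (k' + 1) :=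
    jensen univ w (tw G w) (fun x _ => hw x) (fun x _ => tw_nonneg G hw x) k'
  have hpt : ∀ x, w x * tw G w x ^ (k' + 1) ≤ M₁ ^ (2 * (s * (s + 1))) * (w x * H x) := by
    intro x
    by_cases hx : w x = 0
    · rw [hx]; simp
    · have a1 := lower2 G (u x) (hu0 x) s
      rw [← hk, husum] at a1
      have a2 : tw G w x ^ (k' + 1) ≤ M₁ ^ (2 * (s * (s + 1))) * H x := by
        rw [← hk']
        refine a1.trans ?_
        apply mul_le_mul_of_nonneg_right _ (hH0 x)
        exact pow_le_pow_left₀ (hMn x) (hM x hx) _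
      calc w x * tw G w x ^ (k' + 1) ≤ w x * (M₁ ^ (2 * (s * (s + 1))) * H x) :=
            mul_le_mul_of_nonneg_left a2 (hw x)
        _ = _ := by ring
  have hsum2 : ∑ x, w x * tw G w x ^ (k' + 1) ≤
      M₁ ^ (2 * (s * (s + 1))) * (3 * ((s:ℝ) + 1) ^ 2 * B * (W * M₁ ^ (2 * s + 1))) := by
    refine (Finset.sum_le_sum fun x _ => hpt x).trans ?_
    rw [← Finset.mul_sum]
    exact mul_le_mul_of_nonneg_left hHsum (by positivity)
  rw [hk']
  refine hJ.trans ((mul_le_mul_of_nonneg_left hsum2 (by positivity)).trans (le_of_eq ?_))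
  have e1 : m = 2 * (s * (s + 1)) + (2 * s + 1) := by
    have : 2 * ((s + 1) * (s + 1)) = 2 * (s * (s + 1)) + (2 * s + 1) + 1 := by ring
    rw [hk] at hm
    omega
  rw [e1, pow_add, pow_succ]
  ring

end Pool.Agent.Q179.CF
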