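import Mathlib
import Pool.Agent.Q179.CF.Super2

set_option autoImplicit false

/-!
# A static potential for weighted independent sets
-/

namespace Pool.Agent.Q179.CF

open Finset Function Filter Topology
open scoped Classical

set_option linter.unusedSectionVars false

variable {V : Type} [Fintype V]

/-- weighted degree in `S` -/
noncomputable def Mx (G : SimpleGraph V) (S : Finset V) (w : V → ℝ) (x : V) : ℝ :=
  ∑ y ∈ S, e G x y * w y

/-- the profile of the potential -/
noncomputable def gg (A d B M : ℝ) : ℝ := max 0 (A / (M + d) - B)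

/-- the potential -/
noncomputable def Phi (G : SimpleGraph V) (ρ : V → ℝ) (b A d B : ℝ) (S : Finset V)
    (w : V → ℝ) : ℝ :=
  ∑ x ∈ S, ρ x * (w x * (Real.log b - Real.log (w x))) * gg A d B (Mx G S w x)

/-- weighted number of common neighbours in `S` -/
noncomputable def Kx (G : SimpleGraph V) (S : Finset V) (w : V → ℝ) (v x : V) : ℝ :=
  ∑ y ∈ S, e G x y * (e G v y * w y)

/-- weighted number of triangles at `x` -/
noncomputable def Tx (G : SimpleGraph V) (S : Finset V) (w : V → ℝ) (x : V) : ℝ :=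
  ∑ v ∈ S, w v * Kx G S w v x * e G v x

theorem Mx_nonneg (G : SimpleGraph V) (S : Finset V) {w : V → ℝ} (hw : ∀ x ∈ S, 0 ≤ w x)
    (x : V) : 0 ≤ Mx G S w x := Finset.sum_nonneg fun y hy => mul_nonneg (e_nonneg G x y) (hw y hy)

theorem Mx_mono (G : SimpleGraph V) {S T : Finset V} (hST : S ⊆ T) {w : V → ℝ}
    (hw : ∀ x ∈ T, 0 ≤ w x) (x : V) : Mx G S w x ≤ Mx G T w x :=
  Finset.sum_le_sum_of_subset_of_nonneg hST fun y hy _ => mul_nonneg (e_nonneg G x y) (hw y hy)

theorem gg_nonneg (A d B M : ℝ) : 0 ≤ gg A d B M := le_max_left _ _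

theorem gg_anti {A d B M M' : ℝ} (hA : 0 ≤ A) (hd : 0 < d) (hM : 0 ≤ M) (h : M ≤ M') :
    gg A d B M' ≤ gg A d B M := by
  unfold gg
  apply max_le_max le_rfl
  have : A / (M' + d) ≤ A / (M + d) :=
    div_le_div_of_nonneg_left hA (by linarith) (by linarith)
  linarith

theorem ent_nonneg {b w : ℝ} (h0 : 0 ≤ w) (hb : w ≤ b) : 0 ≤ w * (Real.log b - Real.log w) := by
  rcases h0.eq_or_lt with h | h
  · rw [← h, zero_mul]
  · exact mul_nonneg h0 (by linarith [Real.log_le_log h hb])

theorem ent_le {b w : ℝ} (h0 : 0 < w) (hb : w ≤ b) : w * (Real.log b - Real.log w) ≤ b := by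
  have h1 : 0 < b := lt_of_lt_of_le h0 hb
  have h2 : Real.log b - Real.log w = Real.log (b / w) := (Real.log_div h1.ne' h0.ne').symm
  have h3 := Real.log_le_sub_one_of_pos (div_pos h1 h0)
  rw [h2]
  calc w * Real.log (b / w) ≤ w * (b / w - 1) := mul_le_mul_of_nonneg_left h3 h0.le
    _ = b - w := by field_simp
    _ ≤ b := by linarith

/-- the entropy with a shift -/
theorem ent_le2 {b w : ℝ} (h0 : 0 < w) (hb : w ≤ b) (L : ℝ) :
    w * (Real.log b - Real.log w) ≤ L * w + b * Real.exp (-L) := by
  have h1 : 0 < b := lt_of_lt_of_le h0 hb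
  have h3 : Real.log (b * Real.exp (-L) / w) ≤ b * Real.exp (-L) / w - 1 :=
    Real.log_le_sub_one_of_pos (by positivity)
  rw [Real.log_div (by positivity) h0.ne', Real.log_mul h1.ne' (Real.exp_pos _).ne',
    Real.log_exp] at h3
  have h4 := mul_le_mul_of_nonneg_left h3 h0.le
  have h5 : w * (b * Real.exp (-L) / w - 1) = b * Real.exp (-L) - w := by field_simp
  rw [h5] at h4
  nlinarith

theorem convex_inv {A y y' : ℝ} (hA : 0 ≤ A) (hy : 0 < y) (hy' : 0 < y') :
    A / y + A / y ^ 2 * (y - y') ≤ A / y' := by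
  have h1 : A / y + A / y ^ 2 * (y - y') = A * (2 * y - y') / y ^ 2 := by
    field_simp
    ring
  rw [h1, div_le_div_iff₀ (by positivity) hy']
  have h2 : (2 * y - y') * y' ≤ y ^ 2 := by nlinarith [sq_nonneg (y - y')]
  calc A * (2 * y - y') * y' = A * ((2 * y - y') * y') := by ring
    _ ≤ A * y ^ 2 := mul_le_mul_of_nonneg_left h2 hA

/-- The derivative of the potential in the direction of the weighted degrees vanishes at
a maximum. -/
theorem drift (G : SimpleGraph V) (ρ : V → ℝ) (b A d B : ℝ) (S : Finset V) (w : V → ℝ)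
    (hρ : ∀ x ∈ S, 0 ≤ ρ x) (hd : 0 < d) (hb : 0 < b)
    (hw : ∀ x ∈ S, 0 < w x ∧ w x < b)
    (hG : ∀ x ∈ S, 0 ≤ A / (Mx G S w x + d) - B)
    (hmax : ∀ w' : V → ℝ, (∀ x, 0 ≤ w' x ∧ w' x ≤ b) →
      Phi G ρ b A d B S w' ≤ Phi G ρ b A d B S w) :
    ∑ x ∈ S, ρ x * (w x * (Real.log b - Real.log (w x))) * (A / (Mx G S w x + d) ^ 2) *
        (∑ y ∈ S, e G x y * (w y * Mx G S w y)) =
      ∑ x ∈ S, ρ x * (w x * ((Real.log b - Real.log (w x)) - 1) * Mx G S w x) *
        (A / (Mx G S w x + d) - B) := by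
  set M : V → ℝ := fun x => Mx G S w x with hM
  have hM0 : ∀ x, 0 ≤ M x := fun x => Mx_nonneg G S (fun y hy => (hw y hy).1.le) x
  set l : V → ℝ := fun x => Real.log b - Real.log (w x) with hl
  set ψ : ℝ → ℝ := fun t => ∑ x ∈ S, ρ x * (w x * Real.exp (t * M x) * (l x - t * M x)) *
    (A / ((∑ y ∈ S, e G x y * (w y * Real.exp (t * M y))) + d) - B) with hψ
  have hD0 : ∀ x, (∑ y ∈ S, e G x y * (w y * Real.exp (0 * M y))) + d = M x + d := by
    intro x
    congr 1
    apply Finset.sum_congr rfl
    intro y _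
    simp
  have hder : HasDerivAt ψ (∑ x ∈ S, (ρ x * (w x * (l x - 1) * M x) * (A / (M x + d) - B) -
      ρ x * (w x * l x) * (A / (M x + d) ^ 2) * ∑ y ∈ S, e G x y * (w y * M y))) 0 := by
    rw [hψ]
    apply HasDerivAt.fun_sum
    intro x _
    have hexp : ∀ y, HasDerivAt (fun t : ℝ => Real.exp (t * M y)) (M y) 0 := by
      intro y
      have h1 : HasDerivAt (fun t : ℝ => t * M y) (M y) 0 := by
        simpa using (hasDerivAt_id (0:ℝ)).mul_const (M y)
      simpa using h1.exp
    have h1 : HasDerivAt (fun t : ℝ => ρ x * (w x * Real.exp (t * M x) * (l x - t * M x)))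
        (ρ x * (w x * M x * l x + w x * (- M x))) 0 := by
      have a1 : HasDerivAt (fun t : ℝ => w x * Real.exp (t * M x)) (w x * M x) 0 :=
        (hexp x).const_mul (w x)
      have a2 : HasDerivAt (fun t : ℝ => l x - t * M x) (- M x) 0 := by
        have := ((hasDerivAt_id (0:ℝ)).mul_const (M x)).const_sub (l x)
        simpa using this
      have a3 := (a1.mul a2).const_mul (ρ x)
      simpa using a3
    have h2 : HasDerivAt (fun t : ℝ => (∑ y ∈ S, e G x y * (w y * Real.exp (t * M y))) + d)
        (∑ y ∈ S, e G x y * (w y * M y)) 0 := by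
      apply HasDerivAt.add_const
      apply HasDerivAt.fun_sum
      intro y _
      exact ((hexp y).const_mul (w y)).const_mul (e G x y)
    have h3 : HasDerivAt (fun t : ℝ =>
        A / ((∑ y ∈ S, e G x y * (w y * Real.exp (t * M y))) + d) - B)
        (-(A / (M x + d) ^ 2 * ∑ y ∈ S, e G x y * (w y * M y))) 0 := by
      have a1 : (∑ y ∈ S, e G x y * (w y * Real.exp (0 * M y))) + d ≠ 0 := by
        rw [hD0]
        have := hM0 x
        positivity
      have a2 := ((hasDerivAt_const (0:ℝ) A).div h2 a1).sub_const B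
      refine HasDerivAt.congr_deriv a2 ?_
      rw [hD0]
      have : M x + d ≠ 0 := by have := hM0 x; positivity
      field_simp
      ring
    have h4 := h1.mul h3
    refine HasDerivAt.congr_deriv h4 ?_
    rw [hD0]
    simp only [zero_mul, Real.exp_zero, mul_one, sub_zero]
    ring
  have hloc : IsLocalMax ψ 0 := by
    have hev : ∀ᶠ t in 𝓝 (0:ℝ), ∀ x ∈ S, w x * Real.exp (t * M x) < b := by
      rw [Filter.eventually_all_finset]
      intro x hx
      have hc : ContinuousAt (fun t : ℝ => w x * Real.exp (t * M x)) 0 := by fun_prop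
      have h0 : w x * Real.exp (0 * M x) < b := by simpa using (hw x hx).2
      exact hc.eventually_lt continuousAt_const h0
    filter_upwards [hev] with t ht
    set w' : V → ℝ := fun x => if x ∈ S then w x * Real.exp (t * M x) else 0 with hw'
    have h1 : ∀ x, 0 ≤ w' x ∧ w' x ≤ b := by
      intro x
      simp only [hw']
      split_ifs with h
      · exact ⟨(mul_pos (hw x h).1 (Real.exp_pos _)).le, (ht x h).le⟩
      · exact ⟨le_rfl, hb.le⟩
    have h2 : ψ t ≤ Phi G ρ b A d B S w' := by
      simp only [hψ]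
      unfold Phi
      apply Finset.sum_le_sum
      intro x hx
      have e1 : w' x = w x * Real.exp (t * M x) := by simp only [hw']; rw [if_pos hx]
      have e2 : Mx G S w' x = ∑ y ∈ S, e G x y * (w y * Real.exp (t * M y)) := by
        unfold Mx
        apply Finset.sum_congr rfl
        intro y hy
        simp only [hw']
        rw [if_pos hy]
      have e3 : w' x * (Real.log b - Real.log (w' x)) =
          w x * Real.exp (t * M x) * (l x - t * M x) := by
        rw [e1, Real.log_mul (hw x hx).1.ne' (Real.exp_pos _).ne', Real.log_exp]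
        simp only [hl]
        ring
      rw [e2, e3]
      apply mul_le_mul_of_nonneg_left
      · unfold gg
        exact le_max_right _ _
      · rw [← e3]
        exact mul_nonneg (hρ x hx) (ent_nonneg (h1 x).1 (h1 x).2)
    have h3 : ψ 0 = Phi G ρ b A d B S w := by
      simp only [hψ]
      unfold Phi
      apply Finset.sum_congr rfl
      intro x hx
      rw [hD0]
      simp only [zero_mul, Real.exp_zero, mul_one, sub_zero]
      congr 1
      unfold gg
      rw [max_eq_right (hG x hx)]
    rw [h3]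
    exact h2.trans (hmax w' h1)
  have h0 := hloc.hasDerivAt_eq_zero hder
  rw [Finset.sum_sub_distrib] at h0
  linarith

theorem Mx_cl (G : SimpleGraph V) (S : Finset V) (w : V → ℝ) (v x : V)
    (h : ¬ G.Adj v x) : Mx G (cl G S v) w x = Mx G S w x - Kx G S w v x := by
  unfold Mx Kx
  rw [sum_cl, ← Finset.sum_sub_distrib]
  apply Finset.sum_congr rfl
  intro y _
  unfold sv
  by_cases hvy : v = y
  · subst hvy
    have : e G x v = 0 := by
      rw [e_symm]; simp [e, h]
    rw [this]; ring
  · rw [if_neg hvy]; ring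

theorem s1 (G : SimpleGraph V) (S : Finset V) (w : V → ℝ) (x : V) (hx : x ∈ S) :
    ∑ v ∈ S, w v * sv G v x = (∑ v ∈ S, w v) - Mx G S w x - w x := by
  have h : ∀ v ∈ S, w v * sv G v x = w v - e G x v * w v - (if v = x then w v else 0) := by
    intro v _
    unfold sv
    rw [e_symm G v x]
    by_cases hv : v = x
    · rw [if_pos hv, if_pos hv]; ring
    · rw [if_neg hv, if_neg hv]; ring
  rw [Finset.sum_congr rfl h, Finset.sum_sub_distrib, Finset.sum_sub_distrib,
    Finset.sum_ite_eq' S x, if_pos hx]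
  rfl

theorem s2 (G : SimpleGraph V) (S : Finset V) (w : V → ℝ) (x : V) (hx : x ∈ S) :
    ∑ v ∈ S, w v * Kx G S w v x * sv G v x =
      (∑ y ∈ S, e G x y * (w y * Mx G S w y)) - Tx G S w x - w x * Mx G S w x := by
  have h : ∀ v ∈ S, w v * Kx G S w v x * sv G v x = w v * Kx G S w v x -
      w v * Kx G S w v x * e G v x - (if v = x then w v * Kx G S w v x else 0) := by
    intro v _
    unfold sv
    by_cases hv : v = x
    · rw [if_pos hv, if_pos hv]; ring
    · rw [if_neg hv, if_neg hv]; ring
  rw [Finset.sum_congr rfl h, Finset.sum_sub_distrib, Finset.sum_sub_distrib,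
    Finset.sum_ite_eq' S x, if_pos hx]
  have h1 : ∑ v ∈ S, w v * Kx G S w v x = ∑ y ∈ S, e G x y * (w y * Mx G S w y) := by
    unfold Kx Mx
    simp only [Finset.mul_sum]
    rw [Finset.sum_comm]
    apply Finset.sum_congr rfl
    intro y _
    apply Finset.sum_congr rfl
    intro v _
    rw [e_symm G v y]
    ring
  have h2 : Kx G S w x x = Mx G S w x := by
    unfold Kx Mx
    apply Finset.sum_congr rfl
    intro y _
    rw [← mul_assoc, e_sq]
  rw [h1, h2]
  rfl

/-- The averaging step. -/
theorem avg_step (G : SimpleGraph V) (ρ : V → ℝ) (b A d B η : ℝ) (S : Finset V) (w : V → ℝ)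
    (hS : S.Nonempty) (hρ : ∀ x ∈ S, 0 ≤ ρ x) (hd : 0 < d) (hb : 0 < b)
    (hA : 0 ≤ A) (hAη : A ≤ 1 - η) (hB : 0 ≤ B) (hη : 0 ≤ η) (hbd : 2 * b / d ≤ η / 2)
    (hw : ∀ x ∈ S, 0 < w x ∧ w x < b)
    (hG : ∀ x ∈ S, 0 ≤ A / (Mx G S w x + d) - B)
    (hT : ∑ x ∈ S, ρ x * (w x * (Real.log b - Real.log (w x))) * Tx G S w x ≤
      η * d ^ 2 / 2 * ∑ x ∈ S, ρ x * w x)
    (hmax : ∀ w' : V → ℝ, (∀ x, 0 ≤ w' x ∧ w' x ≤ b) →
      Phi G ρ b A d B S w' ≤ Phi G ρ b A d B S w) (α : ℝ)
    (hpick : ∀ v ∈ S, ρ v + Phi G ρ b A d B (cl G S v) w ≤ α) :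
    Phi G ρ b A d B S w ≤ α := by
  have hdr := drift G ρ b A d B S w hρ hd hb hw hG hmax
  have hM0 : ∀ x, 0 ≤ Mx G S w x := fun x => Mx_nonneg G S (fun y hy => (hw y hy).1.le) x
  set M : V → ℝ := fun x => Mx G S w x with hM
  set c : V → ℝ := fun x => ρ x * (w x * (Real.log b - Real.log (w x))) with hc
  have hc0 : ∀ x ∈ S, 0 ≤ c x := fun x hx =>
    mul_nonneg (hρ x hx) (ent_nonneg (hw x hx).1.le (hw x hx).2.le)
  set g : V → ℝ := fun x => A / (M x + d) - B with hg
  set g' : V → ℝ := fun x => A / (M x + d) ^ 2 with hg'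
  have hyp : ∀ x, 0 < M x + d := fun x => by have := hM0 x; positivity
  have hg'0 : ∀ x, 0 ≤ g' x := fun x => by
    have := hyp x
    simp only [hg']; positivity
  set N : V → ℝ := fun x => ∑ y ∈ S, e G x y * (w y * Mx G S w y) with hN
  set W : ℝ := ∑ v ∈ S, w v with hW
  have hWpos : 0 < W := Finset.sum_pos (fun v hv => (hw v hv).1) hS
  have hPhi : Phi G ρ b A d B S w = ∑ x ∈ S, c x * g x := by
    unfold Phi
    apply Finset.sum_congr rfl
    intro x hx
    unfold gg
    rw [max_eq_right (hG x hx)]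
  -- the moves
  have hmove : ∀ v ∈ S, ∑ x ∈ S, c x * (g x + g' x * Kx G S w v x) * sv G v x ≤
      Phi G ρ b A d B (cl G S v) w := by
    intro v hv
    rw [← sum_cl G S v (fun x => c x * (g x + g' x * Kx G S w v x))]
    unfold Phi
    apply Finset.sum_le_sum
    intro x hx
    have hxS : x ∈ S := (Finset.mem_filter.1 hx).1
    have hnadj : ¬ G.Adj v x := (Finset.mem_filter.1 hx).2.1
    apply mul_le_mul_of_nonneg_left _ (hc0 x hxS)
    rw [Mx_cl G S w v x hnadj]
    unfold gg
    refine le_trans ?_ (le_max_right _ _)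
    have hpos : 0 < Mx G S w x - Kx G S w v x + d := by
      rw [← Mx_cl G S w v x hnadj]
      have : 0 ≤ Mx G (cl G S v) w x := Mx_nonneg G _ (fun y hy =>
        (hw y (Finset.mem_filter.1 hy).1).1.le) x
      positivity
    have h1 := convex_inv hA (hyp x) hpos
    have h2 : M x + d - (Mx G S w x - Kx G S w v x + d) = Kx G S w v x := by
      simp only [hM]; ring
    rw [h2] at h1
    simp only [hg, hg']
    linarith
  have hsum : ∑ v ∈ S, w v * (ρ v + ∑ x ∈ S, c x * (g x + g' x * Kx G S w v x) * sv G v x) ≤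
      W * α := by
    rw [hW, Finset.sum_mul]
    apply Finset.sum_le_sum
    intro v hv
    apply mul_le_mul_of_nonneg_left _ (hw v hv).1.le
    linarith [hmove v hv, hpick v hv]
  have hexp : ∑ v ∈ S, w v * (ρ v + ∑ x ∈ S, c x * (g x + g' x * Kx G S w v x) * sv G v x) =
      ∑ x ∈ S, ρ x * w x + ∑ x ∈ S, (c x * g x * (W - M x - w x) +
        c x * g' x * (N x - Tx G S w x - w x * M x)) := by
    have h1 : ∀ v ∈ S, w v * (ρ v + ∑ x ∈ S, c x * (g x + g' x * Kx G S w v x) * sv G v x) =
        ρ v * w v + ∑ x ∈ S, (c x * g x * (w v * sv G v x) +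
          c x * g' x * (w v * Kx G S w v x * sv G v x)) := by
      intro v _
      rw [mul_add, Finset.mul_sum]
      congr 1
      · ring
      · apply Finset.sum_congr rfl
        intro x _
        ring
    rw [Finset.sum_congr rfl h1, Finset.sum_add_distrib]
    congr 1
    rw [Finset.sum_comm]
    apply Finset.sum_congr rfl
    intro x hx
    rw [Finset.sum_add_distrib, ← Finset.mul_sum, ← Finset.mul_sum, s1 G S w x hx, s2 G S w x hx]
  -- the derivative condition
  have hdr2 : ∑ x ∈ S, c x * g' x * N x = ∑ x ∈ S, (c x * g x * M x - ρ x * w x * (M x * g x)) := by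
    have h1 : ∑ x ∈ S, c x * g' x * N x = ∑ x ∈ S, ρ x * (w x * ((Real.log b - Real.log (w x)) - 1) *
        Mx G S w x) * (A / (Mx G S w x + d) - B) := hdr
    rw [h1]
    apply Finset.sum_congr rfl
    intro x _
    simp only [hc, hg, hM]
    ring
  -- the error terms
  have herr : ∑ x ∈ S, ρ x * w x * (M x * g x) + ∑ x ∈ S, c x * g x * w x +
      ∑ x ∈ S, c x * g' x * (Tx G S w x + w x * M x) ≤ ∑ x ∈ S, ρ x * w x := by
    have t1 : ∑ x ∈ S, ρ x * w x * (M x * g x) ≤ (1 - η) * ∑ x ∈ S, ρ x * w x := by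
      rw [Finset.mul_sum]
      apply Finset.sum_le_sum
      intro x hx
      have h1 : M x * g x ≤ 1 - η := by
        have h2 : M x * (A / (M x + d)) ≤ A := by
          rw [← mul_div_assoc, div_le_iff₀ (hyp x)]
          nlinarith [hM0 x]
        have h3 : 0 ≤ M x * B := mul_nonneg (hM0 x) hB
        simp only [hg]
        nlinarith
      have h4 : 0 ≤ ρ x * w x := mul_nonneg (hρ x hx) (hw x hx).1.le
      nlinarith
    have hcw : ∀ x ∈ S, c x * w x ≤ ρ x * w x * b := by
      intro x hx
      have h1 := ent_le (hw x hx).1 (hw x hx).2.le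
      have h2 : c x * w x = ρ x * w x * (w x * (Real.log b - Real.log (w x))) := by
        simp only [hc]; ring
      rw [h2]
      exact mul_le_mul_of_nonneg_left h1 (mul_nonneg (hρ x hx) (hw x hx).1.le)
    have hA1 : A ≤ 1 := by linarith
    have t2 : ∑ x ∈ S, c x * g x * w x ≤ b / d * ∑ x ∈ S, ρ x * w x := by
      rw [Finset.mul_sum]
      apply Finset.sum_le_sum
      intro x hx
      have h1 : g x ≤ 1 / d := by
        have h2 : A / (M x + d) ≤ 1 / d := by
          rw [div_le_div_iff₀ (hyp x) hd]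
          nlinarith [hM0 x]
        simp only [hg]; linarith
      have h3 : 0 ≤ c x * w x := mul_nonneg (hc0 x hx) (hw x hx).1.le
      calc c x * g x * w x = (c x * w x) * g x := by ring
        _ ≤ (c x * w x) * (1 / d) := mul_le_mul_of_nonneg_left h1 h3
        _ ≤ (ρ x * w x * b) * (1 / d) := mul_le_mul_of_nonneg_right (hcw x hx) (by positivity)
        _ = _ := by ring
    have t3 : ∑ x ∈ S, c x * g' x * (w x * M x) ≤ b / d * ∑ x ∈ S, ρ x * w x := by
      rw [Finset.mul_sum]
      apply Finset.sum_le_sum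
      intro x hx
      have h1 : g' x * M x ≤ 1 / d := by
        simp only [hg']
        rw [div_mul_eq_mul_div, div_le_div_iff₀ (by have := hyp x; positivity) hd]
        have h5 := hM0 x
        have h6 : A * M x * d ≤ 1 * M x * d := by gcongr
        nlinarith [mul_nonneg h5 hd.le, sq_nonneg (M x), sq_nonneg d]
      have h3 : 0 ≤ c x * w x := mul_nonneg (hc0 x hx) (hw x hx).1.le
      calc c x * g' x * (w x * M x) = (c x * w x) * (g' x * M x) := by ring
        _ ≤ (c x * w x) * (1 / d) := mul_le_mul_of_nonneg_left h1 h3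
        _ ≤ (ρ x * w x * b) * (1 / d) := mul_le_mul_of_nonneg_right (hcw x hx) (by positivity)
        _ = _ := by ring
    have hT0 : ∀ x, 0 ≤ Tx G S w x := by
      intro x
      unfold Tx Kx
      exact Finset.sum_nonneg fun v hv => mul_nonneg (mul_nonneg (hw v hv).1.le
        (Finset.sum_nonneg fun y hy => mul_nonneg (e_nonneg G _ _) (mul_nonneg (e_nonneg G _ _)
          (hw y hy).1.le))) (e_nonneg G _ _)
    have t4 : ∑ x ∈ S, c x * g' x * Tx G S w x ≤ η / 2 * ∑ x ∈ S, ρ x * w x := by
      have h1 : ∑ x ∈ S, c x * g' x * Tx G S w x ≤ 1 / d ^ 2 * ∑ x ∈ S, c x * Tx G S w x := by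
        rw [Finset.mul_sum]
        apply Finset.sum_le_sum
        intro x hx
        have h2 : g' x ≤ 1 / d ^ 2 := by
          simp only [hg']
          rw [div_le_div_iff₀ (by have := hyp x; positivity) (by positivity)]
          have h5 := hM0 x
          have h6 : d ^ 2 ≤ (M x + d) ^ 2 := pow_le_pow_left₀ hd.le (by linarith) 2
          nlinarith [sq_nonneg d]
        have h3 : 0 ≤ c x * Tx G S w x := mul_nonneg (hc0 x hx) (hT0 x)
        calc c x * g' x * Tx G S w x = (c x * Tx G S w x) * g' x := by ring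
          _ ≤ (c x * Tx G S w x) * (1 / d ^ 2) := mul_le_mul_of_nonneg_left h2 h3
          _ = _ := by ring
      refine h1.trans ?_
      calc 1 / d ^ 2 * ∑ x ∈ S, c x * Tx G S w x
          ≤ 1 / d ^ 2 * (η * d ^ 2 / 2 * ∑ x ∈ S, ρ x * w x) :=
            mul_le_mul_of_nonneg_left hT (by positivity)
        _ = _ := by field_simp
    have t5 : ∑ x ∈ S, c x * g' x * (Tx G S w x + w x * M x) =
        ∑ x ∈ S, c x * g' x * Tx G S w x + ∑ x ∈ S, c x * g' x * (w x * M x) := by
      rw [← Finset.sum_add_distrib]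
      apply Finset.sum_congr rfl
      intro x _
      ring
    rw [t5]
    have hP : 0 ≤ ∑ x ∈ S, ρ x * w x :=
      Finset.sum_nonneg fun x hx => mul_nonneg (hρ x hx) (hw x hx).1.le
    have t6 : (b / d) * (∑ x ∈ S, ρ x * w x) + (b / d) * (∑ x ∈ S, ρ x * w x) ≤
        η / 2 * ∑ x ∈ S, ρ x * w x := by
      have : (b / d) * (∑ x ∈ S, ρ x * w x) + (b / d) * (∑ x ∈ S, ρ x * w x) =
          (2 * b / d) * ∑ x ∈ S, ρ x * w x := by ring
      rw [this]
      exact mul_le_mul_of_nonneg_right hbd hP
    linarith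
  -- together
  have hfin : W * Phi G ρ b A d B S w ≤ W * α := by
    refine le_trans ?_ hsum
    rw [hexp, hPhi]
    have e1 : ∑ x ∈ S, (c x * g x * (W - M x - w x) +
        c x * g' x * (N x - Tx G S w x - w x * M x)) =
        W * ∑ x ∈ S, c x * g x - ∑ x ∈ S, c x * g x * M x - ∑ x ∈ S, c x * g x * w x +
        (∑ x ∈ S, c x * g' x * N x - ∑ x ∈ S, c x * g' x * (Tx G S w x + w x * M x)) := by
      rw [Finset.mul_sum, ← Finset.sum_sub_distrib, ← Finset.sum_sub_distrib,
        ← Finset.sum_sub_distrib, ← Finset.sum_add_distrib]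
      apply Finset.sum_congr rfl
      intro x _
      ring
    rw [e1, hdr2, Finset.sum_sub_distrib]
    linarith
  exact le_of_mul_le_mul_left hfin hWpos

/-- **The potential method.** -/
theorem potential (G : SimpleGraph V) (ρ : V → ℝ) (b A d η M₁ : ℝ) (S₀ : Finset V)
    (hρ : ∀ x ∈ S₀, 0 ≤ ρ x) (hd : 0 < d) (hb : 0 < b) (hM₁ : 0 < M₁)
    (hA : 0 ≤ A) (hAη : A ≤ 1 - η) (hη : 0 ≤ η) (hbd : 2 * b / d ≤ η / 2)
    (hT : ∀ S ⊆ S₀, ∀ w : V → ℝ, (∀ x ∈ S, 0 < w x ∧ w x < b) →
      (∀ x ∈ S, Mx G S w x < M₁) →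
      ∑ x ∈ S, ρ x * (w x * (Real.log b - Real.log (w x))) * Tx G S w x ≤
        η * d ^ 2 / 2 * ∑ x ∈ S, ρ x * w x) :
    ∀ n : ℕ, ∀ S ⊆ S₀, S.card = n → ∀ α : ℝ, (∀ I ⊆ S, Ind G I → Wt ρ I ≤ α) →
      ∀ w : V → ℝ, (∀ x, 0 ≤ w x ∧ w x ≤ b) → Phi G ρ b A d (A / (M₁ + d)) S w ≤ α := by
  intro n
  induction n using Nat.strong_induction_on with
  | _ n ih =>
    intro S hSS hcard α hα
    set B : ℝ := A / (M₁ + d) with hB
    have hB0 : 0 ≤ B := by positivity
    rcases S.eq_empty_or_nonempty with hemp | hne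
    · intro w _
      have h1 := hα ∅ (Finset.empty_subset _) (by intro x hx; simp at hx)
      rw [hemp]
      simpa [Phi, Wt] using h1
    -- the maximiser
    have hcomp : IsCompact (Set.univ.pi (fun _ : V => Set.Icc (0:ℝ) b)) :=
      isCompact_univ_pi fun _ => isCompact_Icc
    have hnon : (Set.univ.pi (fun _ : V => Set.Icc (0:ℝ) b)).Nonempty :=
      ⟨fun _ => 0, fun _ _ => ⟨le_rfl, hb.le⟩⟩
    have hcont : ContinuousOn (Phi G ρ b A d B S) (Set.univ.pi (fun _ : V => Set.Icc (0:ℝ) b)) := by
      unfold Phi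
      apply continuousOn_finsetSum
      intro x _
      apply ContinuousOn.mul
      · apply Continuous.continuousOn
        have : (fun w : V → ℝ => ρ x * (w x * (Real.log b - Real.log (w x)))) =
            fun w : V → ℝ => ρ x * (w x * Real.log b - w x * Real.log (w x)) := by
          funext w; ring
        rw [this]
        have h2 : Continuous fun w : V → ℝ => w x * Real.log (w x) :=
          Real.continuous_mul_log.comp (continuous_apply x)
        fun_prop
      · unfold gg
        refine (continuous_const.max continuous_id).comp_continuousOn ?_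
        refine ContinuousOn.sub ?_ continuousOn_const
        apply ContinuousOn.div continuousOn_const
        · apply Continuous.continuousOn
          unfold Mx
          fun_prop
        · intro w hw
          have : 0 ≤ Mx G S w x := Mx_nonneg G S (fun y _ => (hw y (Set.mem_univ y)).1) x
          positivity
    obtain ⟨w, hwmem, hwmax⟩ := hcomp.exists_isMaxOn hnon hcont
    have hw0 : ∀ x, 0 ≤ w x ∧ w x ≤ b := fun x => hwmem x (Set.mem_univ x)
    have hmax : ∀ w' : V → ℝ, (∀ x, 0 ≤ w' x ∧ w' x ≤ b) →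
        Phi G ρ b A d B S w' ≤ Phi G ρ b A d B S w := fun w' h' =>
      hwmax (show w' ∈ Set.univ.pi (fun _ : V => Set.Icc (0:ℝ) b) from fun x _ => h' x)
    suffices hmain : Phi G ρ b A d B S w ≤ α from fun w' h' => (hmax w' h').trans hmain
    by_cases hcase : ∃ x ∈ S, w x = 0 ∨ w x = b ∨ M₁ ≤ Mx G S w x
    · obtain ⟨x, hx, hx2⟩ := hcase
      have hsub : S.erase x ⊆ S := Finset.erase_subset _ _
      have hzero : ρ x * (w x * (Real.log b - Real.log (w x))) * gg A d B (Mx G S w x) = 0 := by
        rcases hx2 with h | h | h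
        · rw [h]; ring
        · rw [h]; ring
        · have : gg A d B (Mx G S w x) = 0 := by
            unfold gg
            apply max_eq_left
            have : A / (Mx G S w x + d) ≤ A / (M₁ + d) :=
              div_le_div_of_nonneg_left hA (by positivity) (by linarith)
            linarith
          rw [this, mul_zero]
      have h1 : Phi G ρ b A d B S w ≤ Phi G ρ b A d B (S.erase x) w := by
        unfold Phi
        rw [← Finset.sum_erase_add S _ hx, hzero, add_zero]
        apply Finset.sum_le_sum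
        intro y hy
        have hyS : y ∈ S := hsub hy
        apply mul_le_mul_of_nonneg_left _
          (mul_nonneg (hρ y (hSS hyS)) (ent_nonneg (hw0 y).1 (hw0 y).2))
        exact gg_anti hA hd (Mx_nonneg G _ (fun z _ => (hw0 z).1) y)
          (Mx_mono G hsub (fun z _ => (hw0 z).1) y)
      refine h1.trans ?_
      refine ih (S.erase x).card ?_ (S.erase x) (hsub.trans hSS) rfl α
        (fun I hI => hα I (hI.trans hsub)) w hw0
      rw [← hcard]
      exact Finset.card_lt_card (Finset.erase_ssubset hx)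
    · push Not at hcase
      have hw1 : ∀ x ∈ S, 0 < w x ∧ w x < b := by
        intro x hx
        have h1 := hcase x hx
        exact ⟨lt_of_le_of_ne (hw0 x).1 (Ne.symm h1.1), lt_of_le_of_ne (hw0 x).2 h1.2.1⟩
      have hM2 : ∀ x ∈ S, Mx G S w x < M₁ := fun x hx => (hcase x hx).2.2
      have hM0 : ∀ x, 0 ≤ Mx G S w x := fun x => Mx_nonneg G S (fun y _ => (hw0 y).1) x
      refine avg_step G ρ b A d B η S w hne (fun x hx => hρ x (hSS hx)) hd hb hA hAη hB0 hη hbd
        hw1 ?_ (hT S hSS w hw1 hM2) hmax α ?_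
      · intro x hx
        have : A / (M₁ + d) ≤ A / (Mx G S w x + d) :=
          div_le_div_of_nonneg_left hA (by have := hM0 x; positivity) (by linarith [hM2 x hx])
        linarith
      · intro v hv
        have hsub : cl G S v ⊆ S := Finset.filter_subset _ _
        have hlt : (cl G S v).card < n := by
          rw [← hcard]
          apply Finset.card_lt_card
          refine ⟨hsub, fun h => ?_⟩
          have := (Finset.mem_filter.1 (h hv)).2.2
          exact this rfl
        have h1 := ih (cl G S v).card hlt (cl G S v) (hsub.trans hSS) rfl (α - ρ v) ?_ w hw0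
        · linarith
        · intro I hI hind
          have hvI : v ∉ I := fun h => (Finset.mem_filter.1 (hI h)).2.2 rfl
          have h2 := hα (insert v I) ?_ ?_
          · unfold Wt at h2 ⊢
            rw [Finset.sum_insert hvI] at h2
            linarith
          · intro y hy
            rcases Finset.mem_insert.1 hy with h | h
            · rw [h]; exact hv
            · exact hsub (hI h)
          · intro y hy z hz hadj
            rcases Finset.mem_insert.1 hy with h | h <;> rcases Finset.mem_insert.1 hz with h' | h'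
            · subst h; subst h'; exact G.loopless.irrefl _ hadj
            · subst h
              exact (Finset.mem_filter.1 (hI h')).2.1 hadj
            · subst h'
              exact (Finset.mem_filter.1 (hI h)).2.1 hadj.symm
            · exact hind y h z h' hadj

end Pool.Agent.Q179.CF
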