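import Mathlib
import Pool.Agent.Q179.CF.Pot

set_option autoImplicit false

/-!
# Weights of bounded range, with the potential
-/

namespace Pool.Agent.Q179.CF

open Finset Function Filter Topology
open scoped Classical

set_option linter.unusedSectionVars false

section
variable {V : Type} [Fintype V]

theorem sum_restrict (S : Finset V) (f : V → ℝ → ℝ) (w : V → ℝ) (hf : ∀ x, f x 0 = 0) :
    ∑ x, f x (if x ∈ S then w x else 0) = ∑ x ∈ S, f x (w x) := by
  have h1 : ∀ x, f x (if x ∈ S then w x else 0) = if x ∈ S then f x (w x) else 0 := by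
    intro x
    split_ifs
    · rfl
    · exact hf x
  rw [Finset.sum_congr rfl fun x _ => h1 x, Finset.sum_ite_mem, Finset.univ_inter]

theorem Mw_restrict (G : SimpleGraph V) (S : Finset V) (w : V → ℝ) (x : V) :
    Mw G (fun y => if y ∈ S then w y else 0) x = Mx G S w x := by
  unfold Mw Mx
  exact sum_restrict S (fun y t => e G x y * t) w (fun y => by simp)

theorem tw_restrict (G : SimpleGraph V) (S : Finset V) (w : V → ℝ) (x : V) :
    tw G (fun y => if y ∈ S then w y else 0) x = Tx G S w x := by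
  unfold tw ew Tx Kx
  have h1 : ∀ c, ∑ y, (e G x y * (if y ∈ S then w y else 0)) * e G y c =
      ∑ y ∈ S, e G x y * (e G c y * w y) := by
    intro c
    rw [sum_restrict S (fun y t => (e G x y * t) * e G y c) w (fun y => by simp)]
    apply Finset.sum_congr rfl
    intro y _
    rw [e_symm G y c]
    ring
  rw [Finset.sum_congr rfl fun c _ => by rw [h1 c]]
  rw [sum_restrict S (fun c t => (e G x c * t) * ∑ y ∈ S, e G x y * (e G c y * w y)) w
    (fun y => by simp)]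
  apply Finset.sum_congr rfl
  intro c _
  rw [e_symm G x c]
  ring

theorem few3 (G : SimpleGraph V) (s k m : ℕ) (hk : k = (s + 1) * (s + 1))
    (hm : m + 1 = 2 * k) (hG : Free3 G (s + 1)) (ρ : V → ℝ)
    {R D b M₁ θ L : ℝ} (S₀ : Finset V) (hρ : ∀ x ∈ S₀, 1 ≤ ρ x ∧ ρ x ≤ R)
    (hdeg : ∀ x ∈ S₀, dg G S₀ x ≤ D) (hb : 0 < b) (hM₁ : 0 < M₁) (hθ : 0 ≤ θ) (hL : 0 ≤ L)
    (hR : 0 ≤ R) (hD : 0 ≤ D)
    (hθ2 : 3 * ((s:ℝ) + 1) ^ 2 * b * M₁ ^ m ≤ θ ^ k) (δ : ℝ)
    (hδ : R * (L * θ + b * Real.exp (-L) * (M₁ * D)) ≤ δ)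
    (S : Finset V) (hS : S ⊆ S₀) (w : V → ℝ) (hw : ∀ x ∈ S, 0 < w x ∧ w x < b)
    (hM : ∀ x ∈ S, Mx G S w x < M₁) :
    ∑ x ∈ S, ρ x * (w x * (Real.log b - Real.log (w x))) * Tx G S w x ≤
        δ * ∑ x ∈ S, ρ x * w x := by
  have hk0 : k ≠ 0 := by rw [hk]; positivity
  set w' : V → ℝ := fun y => if y ∈ S then w y else 0 with hw'
  have hw'0 : ∀ x, 0 ≤ w' x := by
    intro x
    simp only [hw']
    split_ifs with h
    · exact (hw x h).1.le
    · exact le_rfl
  have hw'b : ∀ x, w' x ≤ b := by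
    intro x
    simp only [hw']
    split_ifs with h
    · exact (hw x h).2.le
    · exact hb.le
  have hM' : ∀ x, w' x ≠ 0 → Mw G w' x ≤ M₁ := by
    intro x hx
    by_cases h : x ∈ S
    · rw [Mw_restrict]; exact (hM x h).le
    · exact absurd (by simp only [hw']; rw [if_neg h]) hx
  have hWsum : ∑ x, w' x = ∑ x ∈ S, w x := sum_restrict S (fun _ t => t) w (fun _ => rfl)
  have hTsum : ∑ x, w' x * tw G w' x = ∑ x ∈ S, w x * Tx G S w x := by
    have : ∀ x, w' x * tw G w' x = (if x ∈ S then w x else 0) * Tx G S w x := by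
      intro x
      rw [tw_restrict]
    rw [Finset.sum_congr rfl fun x _ => this x]
    exact sum_restrict S (fun x t => t * Tx G S w x) w (fun x => by simp)
  set W : ℝ := ∑ x ∈ S, w x with hW
  have hW0 : 0 ≤ W := Finset.sum_nonneg fun x hx => (hw x hx).1.le
  have hT0 : ∀ x, 0 ≤ Tx G S w x := by
    intro x
    rw [← tw_restrict]
    exact tw_nonneg G hw'0 x
  have h1 := few2 G s hG hw'0 hw'b hb.le hM₁.le hM' k m hk hm
  rw [hWsum, hTsum] at h1
  have h2 : ∑ x ∈ S, w x * Tx G S w x ≤ θ * W := by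
    apply le_of_pow_le_pow_left₀ hk0 (mul_nonneg hθ hW0)
    rw [mul_pow]
    exact h1.trans (mul_le_mul_of_nonneg_right hθ2 (pow_nonneg hW0 _))
  have h3 : ∑ x ∈ S, Tx G S w x ≤ M₁ * (D * W) := by
    have a1 : ∀ x ∈ S, Tx G S w x ≤ M₁ * Mx G S w x := by
      intro x _
      rw [← tw_restrict, ← Mw_restrict, mul_comm]
      exact tw_le G hw'0 hM' x
    have a2 : ∑ x ∈ S, Mx G S w x ≤ D * W := by
      unfold Mx
      rw [Finset.sum_comm, hW, Finset.mul_sum]
      apply Finset.sum_le_sum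
      intro y hy
      rw [← Finset.sum_mul]
      apply mul_le_mul_of_nonneg_right _ (hw y hy).1.le
      refine le_trans ?_ (hdeg y (hS hy))
      unfold dg
      refine le_trans (le_of_eq (Finset.sum_congr rfl fun x _ => e_symm G x y)) ?_
      exact Finset.sum_le_sum_of_subset_of_nonneg hS fun z _ _ => e_nonneg G y z
    refine (Finset.sum_le_sum a1).trans ?_
    rw [← Finset.mul_sum]
    exact mul_le_mul_of_nonneg_left a2 hM₁.le
  have h4 : ∀ x ∈ S, ρ x * (w x * (Real.log b - Real.log (w x))) * Tx G S w x ≤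
      R * (L * (w x * Tx G S w x) + b * Real.exp (-L) * Tx G S w x) := by
    intro x hx
    have a1 := ent_le2 (hw x hx).1 (hw x hx).2.le L
    have a2 := hρ x (hS hx)
    have a3 := ent_nonneg (hw x hx).1.le (hw x hx).2.le
    calc ρ x * (w x * (Real.log b - Real.log (w x))) * Tx G S w x
        ≤ R * (w x * (Real.log b - Real.log (w x))) * Tx G S w x :=
          mul_le_mul_of_nonneg_right (mul_le_mul_of_nonneg_right a2.2 a3) (hT0 x)
      _ ≤ R * (L * w x + b * Real.exp (-L)) * Tx G S w x :=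
          mul_le_mul_of_nonneg_right (mul_le_mul_of_nonneg_left a1 hR) (hT0 x)
      _ = _ := by ring
  have h5 : W ≤ ∑ x ∈ S, ρ x * w x := by
    rw [hW]
    apply Finset.sum_le_sum
    intro x hx
    have a1 := (hw x hx).1
    have a2 := (hρ x (hS hx)).1
    nlinarith
  have hδ0 : 0 ≤ δ := by
    refine le_trans ?_ hδ
    positivity
  calc ∑ x ∈ S, ρ x * (w x * (Real.log b - Real.log (w x))) * Tx G S w x
      ≤ ∑ x ∈ S, R * (L * (w x * Tx G S w x) + b * Real.exp (-L) * Tx G S w x) :=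
        Finset.sum_le_sum h4
    _ = R * (L * ∑ x ∈ S, w x * Tx G S w x + b * Real.exp (-L) * ∑ x ∈ S, Tx G S w x) := by
        rw [← Finset.mul_sum, Finset.sum_add_distrib, ← Finset.mul_sum, ← Finset.mul_sum]
    _ ≤ R * (L * (θ * W) + b * Real.exp (-L) * (M₁ * (D * W))) := by
        gcongr
    _ = R * (L * θ + b * Real.exp (-L) * (M₁ * D)) * W := by ring
    _ ≤ δ * W := mul_le_mul_of_nonneg_right hδ hW0
    _ ≤ _ := mul_le_mul_of_nonneg_left h5 hδ0

end

/-- the choice of the parameters -/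
theorem params2 (η r C : ℝ) (hη : 0 < η) (hr : 0 < r) :
    ∃ X₀ : ℝ, 1 ≤ X₀ ∧ ∀ X : ℝ, X₀ ≤ X →
      2 * C * (X * Real.exp (-(r * X))) ≤ η ^ 3 / 4 ∧
      1 / η * Real.exp (-X) ≤ η ^ 3 / 4 ∧
      2 * Real.exp (-(2 * η * X)) / η ≤ η / 2 := by
  have h1 : Tendsto (fun X : ℝ => 2 * C * (X * Real.exp (-(r * X)))) atTop (𝓝 0) := by
    have h := (Real.tendsto_pow_mul_exp_neg_atTop_nhds_zero 1).comp (tendsto_id.const_mul_atTop hr)
    have h' := h.const_mul (2 * C / r)
    rw [mul_zero] at h'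
    refine h'.congr fun X => ?_
    simp only [Function.comp, id, pow_one]
    field_simp
  have h2 : Tendsto (fun X : ℝ => 1 / η * Real.exp (-X)) atTop (𝓝 0) := by
    have h := (Real.tendsto_exp_neg_atTop_nhds_zero).const_mul (1 / η)
    rwa [mul_zero] at h
  have h3 : Tendsto (fun X : ℝ => 2 * Real.exp (-(2 * η * X)) / η) atTop (𝓝 0) := by
    have h := (Real.tendsto_exp_neg_atTop_nhds_zero).comp
      (tendsto_id.const_mul_atTop (show 0 < 2 * η by positivity))
    have h' := h.const_mul (2 / η)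
    rw [mul_zero] at h'
    refine h'.congr fun X => ?_
    simp only [Function.comp, id]
    ring
  have e1 := h1.eventually_le_const (show (0:ℝ) < η ^ 3 / 4 by positivity)
  have e2 := h2.eventually_le_const (show (0:ℝ) < η ^ 3 / 4 by positivity)
  have e3 := h3.eventually_le_const (show (0:ℝ) < η / 2 by positivity)
  obtain ⟨X₀, hX₀⟩ := ((e1.and e2).and e3).exists_forall_of_atTop
  refine ⟨max X₀ 1, le_max_right _ _, fun X hX => ?_⟩
  have := hX₀ X ((le_max_left _ _).trans hX)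
  exact ⟨this.1.1, this.1.2, this.2⟩

/-- **Weights of bounded range**, constant one. -/
theorem bounded2 (s : ℕ) (η : ℝ) (hη : 0 < η) (hη2 : η ≤ 1 / 4) :
    ∃ Δ₀ : ℝ, 2 ≤ Δ₀ ∧ ∀ Δ : ℝ, Δ₀ ≤ Δ → ∀ (V : Type) [Fintype V] (G : SimpleGraph V),
      Free3 G (s + 1) → ∀ (ρ : V → ℝ) (S : Finset V) (r : ℝ), 0 < r →
      (∀ x ∈ S, r ≤ ρ x ∧ ρ x ≤ r * Δ ^ (η / (((s + 1) * (s + 1) : ℕ) : ℝ))) →
      (∀ x ∈ S, dg G S x ≤ Δ) →
      ∃ I ⊆ S, Ind G I ∧ (1 - 5 * η) * (Real.log Δ / Δ) * Wt ρ S ≤ Wt ρ I := by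
  set k : ℕ := (s + 1) * (s + 1) with hk
  have hk0 : k ≠ 0 := by rw [hk]; positivity
  have hk1 : (1:ℝ) ≤ k := by exact_mod_cast Nat.one_le_iff_ne_zero.2 hk0
  obtain ⟨m, hm⟩ : ∃ m, m + 1 = 2 * k := ⟨2 * k - 1, by omega⟩
  set M₁ : ℝ := 1 / η with hM₁
  have hM₁1 : 1 ≤ M₁ := by rw [hM₁, le_div_iff₀ hη]; linarith
  set C : ℝ := 3 * ((s:ℝ) + 1) ^ 2 * M₁ ^ m with hC
  have hC1 : 1 ≤ C := by
    have a1 : (1:ℝ) ≤ ((s:ℝ) + 1) ^ 2 := one_le_pow₀ (by linarith [(Nat.cast_nonneg s : (0:ℝ) ≤ s)])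
    have a2 : 1 ≤ M₁ ^ m := one_le_pow₀ hM₁1
    rw [hC]
    nlinarith
  set q : ℝ := η / k with hq
  have hq0 : 0 < q := by positivity
  have hqη : q ≤ η := by
    rw [hq, div_le_iff₀ (by linarith)]
    nlinarith
  obtain ⟨X₀, hX₀1, hX₀⟩ := params2 η q C hη hq0
  refine ⟨max 2 (Real.exp X₀), le_max_left _ _, ?_⟩
  intro Δ hΔ V _ G hG ρ S r hr hρ hdeg
  have hΔ2 : 2 ≤ Δ := (le_max_left _ _).trans hΔ
  have hΔ0 : 0 < Δ := by linarith
  set X : ℝ := Real.log Δ with hX
  have hXX : X₀ ≤ X := by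
    rw [hX, Real.le_log_iff_exp_le hΔ0]
    exact (le_max_right _ _).trans hΔ
  have hX1 : 1 ≤ X := hX₀1.trans hXX
  have hX0 : 0 < X := by linarith
  have hexpX : Real.exp X = Δ := Real.exp_log hΔ0
  obtain ⟨p1, p2, p3⟩ := hX₀ X hXX
  have hRq : Δ ^ q = Real.exp (q * X) := by
    rw [Real.rpow_def_of_pos hΔ0, hX]
    congr 1
    ring
  set R : ℝ := Real.exp (q * X) with hR
  set b : ℝ := Real.exp (-(2 * η * X)) with hb
  set θ : ℝ := C * Real.exp (-(2 * q * X)) with hθ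
  set ρ' : V → ℝ := fun x => ρ x / r with hρ'
  have hρ'1 : ∀ x ∈ S, 1 ≤ ρ' x ∧ ρ' x ≤ R := by
    intro x hx
    obtain ⟨h1, h2⟩ := hρ x hx
    rw [hRq] at h2
    simp only [hρ']
    constructor
    · rw [le_div_iff₀ hr]; linarith
    · rw [div_le_iff₀ hr]; linarith
  have hθ2 : 3 * ((s:ℝ) + 1) ^ 2 * b * M₁ ^ m ≤ θ ^ k := by
    have a1 : θ ^ k = C ^ k * b := by
      rw [hθ, mul_pow, hb, ← Real.exp_nat_mul]
      congr 2
      rw [hq]
      have : (k:ℝ) ≠ 0 := by positivity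
      field_simp
    have a2 : C ≤ C ^ k := le_self_pow₀ hC1 hk0
    rw [a1]
    calc 3 * ((s:ℝ) + 1) ^ 2 * b * M₁ ^ m = C * b := by rw [hC]; ring
      _ ≤ C ^ k * b := mul_le_mul_of_nonneg_right a2 (Real.exp_pos _).le
  have hδ : R * ((2 * X) * θ + b * Real.exp (-(2 * X)) * (M₁ * Δ)) ≤ η * η ^ 2 / 2 := by
    have a1 : R * ((2 * X) * θ) = 2 * C * (X * Real.exp (-(q * X))) := by
      have : Real.exp (-(q * X)) = Real.exp (q * X) * Real.exp (-(2 * q * X)) := by
        rw [← Real.exp_add]; congr 1; ring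
      rw [hθ, hR, this]
      ring
    have a2 : R * (b * Real.exp (-(2 * X)) * (M₁ * Δ)) ≤ 1 / η * Real.exp (-X) := by
      have e1 : R * (b * Real.exp (-(2 * X)) * (M₁ * Δ)) =
          M₁ * Real.exp (q * X + (-(2 * η * X)) + (-(2 * X)) + X) := by
        rw [Real.exp_add, Real.exp_add, Real.exp_add, hexpX, hR, hb]
        ring
      rw [e1]
      apply mul_le_mul_of_nonneg_left _ (by positivity)
      apply Real.exp_le_exp.2
      nlinarith
    calc R * ((2 * X) * θ + b * Real.exp (-(2 * X)) * (M₁ * Δ))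
        = R * ((2 * X) * θ) + R * (b * Real.exp (-(2 * X)) * (M₁ * Δ)) := by ring
      _ ≤ η ^ 3 / 4 + η ^ 3 / 4 := by rw [a1]; linarith
      _ = _ := by ring
  -- the maximal independent set
  have hne : (S.powerset.filter (fun I => Ind G I)).Nonempty := ⟨∅, by
    simp [Ind]⟩
  obtain ⟨I, hI, hImax⟩ := Finset.exists_max_image _ (Wt ρ') hne
  rw [Finset.mem_filter, Finset.mem_powerset] at hI
  refine ⟨I, hI.1, hI.2, ?_⟩
  have hpot := potential G ρ' b (1 - η) η η M₁ S (fun x hx => by linarith [(hρ'1 x hx).1]) hη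
    (Real.exp_pos _) (by linarith) (by linarith) le_rfl hη.le p3
    (fun T hT w hw hM => few3 G s k m hk hm hG ρ' S hρ'1 hdeg (Real.exp_pos _) (by linarith)
      (by positivity) (by positivity) (Real.exp_pos _).le hΔ0.le hθ2 _ hδ T hT w hw hM)
    S.card S subset_rfl rfl (Wt ρ' I)
    (fun J hJ hJ2 => hImax J (by rw [Finset.mem_filter, Finset.mem_powerset]; exact ⟨hJ, hJ2⟩))
    (fun _ => Real.exp (-X))
    (fun _ => ⟨(Real.exp_pos _).le, Real.exp_le_exp.2 (by nlinarith)⟩)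
  -- evaluate
  have hval : (1 - 5 * η) * (X / Δ) * Wt ρ' S ≤
      Phi G ρ' b (1 - η) η ((1 - η) / (M₁ + η)) S (fun _ => Real.exp (-X)) := by
    unfold Phi Wt
    rw [Finset.mul_sum]
    apply Finset.sum_le_sum
    intro x hx
    have hM : Mx G S (fun _ => Real.exp (-X)) x ≤ 1 := by
      unfold Mx
      rw [← Finset.sum_mul]
      have := hdeg x hx
      unfold dg at this
      calc (∑ i ∈ S, e G x i) * Real.exp (-X) ≤ Δ * Real.exp (-X) :=
            mul_le_mul_of_nonneg_right this (Real.exp_pos _).le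
        _ = 1 := by rw [← hexpX, ← Real.exp_add]; simp
    have hM0 : 0 ≤ Mx G S (fun _ => Real.exp (-X)) x :=
      Mx_nonneg G S (fun _ _ => (Real.exp_pos _).le) x
    have hg : (1 - η) * (1 - 2 * η) ≤
        gg (1 - η) η ((1 - η) / (M₁ + η)) (Mx G S (fun _ => Real.exp (-X)) x) := by
      unfold gg
      refine le_trans ?_ (le_max_right _ _)
      have b1 : (1 - η) * (1 - η) ≤ (1 - η) / (Mx G S (fun _ => Real.exp (-X)) x + η) := by
        rw [le_div_iff₀ (by linarith)]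
        nlinarith
      have b2 : (1 - η) / (M₁ + η) ≤ (1 - η) * η := by
        rw [div_le_iff₀ (by linarith)]
        have : η * M₁ = 1 := by rw [hM₁]; field_simp
        nlinarith
      nlinarith
    have hρx : 0 ≤ ρ' x := by linarith [(hρ'1 x hx).1]
    have hlog : Real.log b - Real.log (Real.exp (-X)) = (1 - 2 * η) * X := by
      rw [hb, Real.log_exp, Real.log_exp]; ring
    have hinv : Real.exp (-X) = 1 / Δ := by
      rw [Real.exp_neg, hexpX, one_div]
    rw [hlog]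
    have c1 : (1 - 5 * η) ≤ (1 - 2 * η) * ((1 - η) * (1 - 2 * η)) := by
      nlinarith [mul_pos hη hη, mul_pos (mul_pos hη hη) hη]
    have c2 : 0 ≤ (1 - 2 * η) * X := mul_nonneg (by linarith) hX0.le
    calc (1 - 5 * η) * (X / Δ) * ρ' x
        ≤ ((1 - 2 * η) * ((1 - η) * (1 - 2 * η))) * (X / Δ) * ρ' x := by gcongr
      _ = ρ' x * (Real.exp (-X) * ((1 - 2 * η) * X)) * ((1 - η) * (1 - 2 * η)) := by
          rw [hinv]; ring
      _ ≤ _ := mul_le_mul_of_nonneg_left hg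
          (mul_nonneg hρx (mul_nonneg (Real.exp_pos _).le c2))
  have hfin := hval.trans hpot
  have hWI : ∀ T : Finset V, Wt ρ T = r * Wt ρ' T := by
    intro T
    unfold Wt
    rw [Finset.mul_sum]
    apply Finset.sum_congr rfl
    intro x _
    simp only [hρ']
    field_simp
  rw [hWI S, hWI I]
  nlinarith [mul_le_mul_of_nonneg_left hfin hr.le]

end Pool.Agent.Q179.CF
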