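import Mathlib
import Pool.Agent.Q179.CF.Bounded2
import Pool.Agent.Q179.CF.Blocks

set_option autoImplicit false

/-!
# All weights
-/

namespace Pool.Agent.Q179.CF

open Finset Function Filter Topology
open scoped Classical

set_option linter.unusedSectionVars false

/-- Bonferroni -/
theorem bonf (γ : ℝ) (h0 : 0 ≤ γ) (h1 : γ ≤ 1) (m : ℕ) :
    m * γ * (1 - m * γ / 2) ≤ 1 - (1 - γ) ^ m := by
  induction m with
  | zero => simp
  | succ m ih =>
    have h2 : 1 - m * γ ≤ (1 - γ) ^ m := by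
      have := one_add_mul_le_pow (show (-2:ℝ) ≤ -γ by linarith) m
      calc 1 - m * γ = 1 + m * (-γ) := by ring
        _ ≤ (1 + -γ) ^ m := this
        _ = (1 - γ) ^ m := by ring_nf
    have h3 : 1 - (1 - γ) ^ (m + 1) = 1 - (1 - γ) ^ m + γ * (1 - γ) ^ m := by ring
    rw [h3]
    push_cast
    have h4 : γ * (1 - m * γ) ≤ γ * (1 - γ) ^ m := mul_le_mul_of_nonneg_left h2 h0
    nlinarith [mul_nonneg h0 h0]

theorem params3 (η q : ℝ) (hη : 0 < η) (hq : 0 < q) :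
    ∃ Δ₀ : ℝ, 2 ≤ Δ₀ ∧ ∀ Δ : ℝ, Δ₀ ≤ Δ →
      Real.log Δ / Δ ^ q ≤ η ^ 2 ∧ Real.log Δ / Δ ≤ η := by
  have h1 : Tendsto (fun x : ℝ => Real.log x / x ^ q) atTop (𝓝 0) :=
    (isLittleO_log_rpow_atTop hq).tendsto_div_nhds_zero
  have h2 : Tendsto (fun x : ℝ => Real.log x / x) atTop (𝓝 0) := by
    have := (isLittleO_log_rpow_atTop (show (0:ℝ) < 1 by norm_num)).tendsto_div_nhds_zero
    simpa using this
  have e1 := h1.eventually_le_const (show (0:ℝ) < η ^ 2 by positivity)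
  have e2 := h2.eventually_le_const hη
  obtain ⟨X₀, hX₀⟩ := (e1.and e2).exists_forall_of_atTop
  exact ⟨max 2 X₀, le_max_left _ _, fun X hX => hX₀ X ((le_max_right _ _).trans hX)⟩

/-- **All weights.** -/
theorem allweights (s : ℕ) (ε : ℝ) (hε : 0 < ε) :
    ∃ Δ₀ : ℝ, 2 ≤ Δ₀ ∧ ∀ Δ : ℝ, Δ₀ ≤ Δ → ∀ (V : Type) [Fintype V] (G : SimpleGraph V),
      Free3 G (s + 1) → (∀ x, dg G univ x ≤ Δ) → ∀ ρ : V → ℝ, (∀ x, 0 ≤ ρ x) →
      ∃ I, Ind G I ∧ (1 - ε) * (Real.log Δ / Δ) * Wt ρ univ ≤ Wt ρ I := by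
  set η : ℝ := min (ε / 8) (1 / 8) with hη'
  have hη : 0 < η := lt_min (by linarith) (by norm_num)
  have hηε : 8 * η ≤ ε := by
    have := min_le_left (ε / 8) (1 / 8)
    rw [← hη'] at this
    linarith
  have hη8 : η ≤ 1 / 8 := min_le_right _ _
  set k : ℕ := (s + 1) * (s + 1) with hk
  have hk0 : k ≠ 0 := by rw [hk]; positivity
  have hkR : (0:ℝ) < k := by exact_mod_cast Nat.pos_of_ne_zero hk0
  obtain ⟨Δ₁, hΔ₁2, hΔ₁⟩ := bounded2 s η hη (by linarith)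
  obtain ⟨L, hL⟩ := exists_nat_ge (1 / η)
  have hLR : (0:ℝ) < L := lt_of_lt_of_le (by positivity) hL
  have hL0 : 0 < L := by exact_mod_cast hLR
  have hLη : 1 / (L:ℝ) ≤ η := by
    rw [div_le_iff₀ hLR]
    rw [div_le_iff₀ hη] at hL
    linarith
  set q : ℝ := η / (k * L) with hq
  have hq0 : 0 < q := by positivity
  obtain ⟨Δ₂, hΔ₂2, hΔ₂⟩ := params3 η q hη hq0
  refine ⟨max Δ₁ Δ₂, hΔ₁2.trans (le_max_left _ _), ?_⟩
  intro Δ hΔ V _ G hG hdeg ρ hρ
  obtain ⟨p1, p2⟩ := hΔ₂ Δ ((le_max_right _ _).trans hΔ)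
  have hΔ2 : 2 ≤ Δ := hΔ₂2.trans ((le_max_right _ _).trans hΔ)
  have hΔ0 : 0 < Δ := by linarith
  have hlog : 0 < Real.log Δ := Real.log_pos (by linarith)
  set γ : ℝ := (1 - 5 * η) * (Real.log Δ / Δ) with hγ
  have hγ0 : 0 < γ := mul_pos (by linarith) (div_pos hlog hΔ0)
  have hγη : γ ≤ η := by
    have h1 : (1 - 5 * η) * (Real.log Δ / Δ) ≤ 1 * (Real.log Δ / Δ) :=
      mul_le_mul_of_nonneg_right (by linarith) (by positivity)
    rw [hγ]; linarith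
  set K : ℝ := Δ ^ q with hK
  have hK1 : 1 < K := Real.one_lt_rpow (by linarith) hq0
  have hK0 : 0 < K := by linarith
  have hKL : K ^ L = Δ ^ (η / (k:ℝ)) := by
    rw [hK, ← Real.rpow_natCast, ← Real.rpow_mul hΔ0.le]
    congr 1
    rw [hq]
    field_simp
  -- the number of colours
  obtain ⟨m, hm1, hm2⟩ : ∃ m : ℕ, η ≤ m * γ ∧ m * γ ≤ 2 * η := by
    refine ⟨⌈η / γ⌉₊, ?_, ?_⟩
    · have := Nat.le_ceil (η / γ)
      rwa [div_le_iff₀ hγ0] at this
    · have := (Nat.ceil_lt_add_one (show 0 ≤ η / γ by positivity)).le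
      calc (⌈η / γ⌉₊ : ℝ) * γ ≤ (η / γ + 1) * γ := mul_le_mul_of_nonneg_right this hγ0.le
        _ = η + γ := by field_simp
        _ ≤ 2 * η := by linarith
  have hm0 : 0 < m := by
    rcases Nat.eq_zero_or_pos m with h | h
    · rw [h] at hm1; simp at hm1; linarith
    · exact h
  have hmR : (0:ℝ) < m := by exact_mod_cast hm0
  obtain ⟨I, hI, hI2⟩ := general_weights G hρ (γ := γ) (Δ := Δ) (K := K) hγ0.le (by linarith) hK1
    hdeg L hL0 (by
      intro X r hr hX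
      rw [hKL] at hX
      exact hΔ₁ Δ ((le_max_left _ _).trans hΔ) V G hG ρ X r hr hX (fun x _ => by
        refine le_trans ?_ (hdeg x)
        unfold dg
        exact Finset.sum_le_sum_of_subset_of_nonneg (Finset.subset_univ _)
          fun z _ _ => e_nonneg G x z)) m hm0
  refine ⟨I, hI, ?_⟩
  have hW : 0 ≤ Wt ρ univ := Wt_nonneg hρ _
  have hb := bonf γ hγ0.le (by linarith) m
  have h1 : m * γ * (1 - η) ≤ 1 - (1 - γ) ^ m := by
    refine le_trans ?_ hb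
    apply mul_le_mul_of_nonneg_left _ (by positivity)
    linarith
  have h2 : m * γ * (1 - η) * (1 - η) ≤ (1 - (1 - γ) ^ m) * (1 - 1 / (L:ℝ)) := by
    have a1 : 1 - η ≤ 1 - 1 / (L:ℝ) := by linarith
    have a2 : 0 ≤ 1 - (1 - γ) ^ m := le_trans (by
      have : 0 ≤ 1 - η := by linarith
      positivity) h1
    exact mul_le_mul h1 a1 (by linarith) a2
  have h3 : γ * Δ / K ≤ η ^ 2 := by
    have a1 : γ * Δ = (1 - 5 * η) * Real.log Δ := by
      rw [hγ]; field_simp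
    rw [a1]
    calc (1 - 5 * η) * Real.log Δ / K ≤ 1 * Real.log Δ / K := by
          gcongr
          linarith
      _ = Real.log Δ / K := by rw [one_mul]
      _ ≤ η ^ 2 := p1
  have h4 : m * γ * (1 - 3 * η) ≤ (1 - (1 - γ) ^ m) * (1 - 1 / (L:ℝ)) - γ * Δ / K := by
    have a1 : η ^ 2 ≤ η * (m * γ) := by nlinarith
    nlinarith [mul_nonneg hmR.le hγ0.le, sq_nonneg η]
  have h5 : m * ((1 - ε) * (Real.log Δ / Δ) * Wt ρ univ) ≤ m * Wt ρ I := by
    refine le_trans ?_ hI2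
    refine le_trans ?_ (mul_le_mul_of_nonneg_right h4 hW)
    have a1 : (1 - ε) ≤ (1 - 5 * η) * (1 - 3 * η) := by nlinarith [sq_nonneg η]
    have a2 : (1 - ε) * (Real.log Δ / Δ) ≤ γ * (1 - 3 * η) := by
      have a3 : γ * (1 - 3 * η) = ((1 - 5 * η) * (1 - 3 * η)) * (Real.log Δ / Δ) := by
        rw [hγ]; ring
      rw [a3]
      exact mul_le_mul_of_nonneg_right a1 (by positivity)
    calc m * ((1 - ε) * (Real.log Δ / Δ) * Wt ρ univ)
        ≤ m * (γ * (1 - 3 * η) * Wt ρ univ) := by gcongr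
      _ = _ := by ring
  exact le_of_mul_le_mul_left h5 hmR

end Pool.Agent.Q179.CF
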